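import Pool.Agent.H493.WB.Cls
import Pool.Agent.H510.UZ.Glob2

/-! Universality classes. -/

set_option autoImplicit false

open Complex Filter Topology Set MeasureTheory
open scoped BigOperators ComplexConjugate

namespace Pool.Agent.H493.WB

open H370 TH803TW H295SI Pool.Agent.H493.BS
open Pool.Agent.H510.UZ (Near Ms Ms_fin)

section

variable {K : Set ℂ} (hKs : ∀ z ∈ K, 1 / 2 < z.re ∧ z.re < 1)

/-- the functions near the class `A` -/
def SS (K : Set ℂ) (A : Set (ℂ → ℂ)) (η : ℝ) : Set C(K, ℂ) :=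
  {u | ∃ f ∈ A, ∃ r < η, ∀ z : K, ‖u z - f z‖ ≤ r}

lemma SS_open [CompactSpace K] (A : Set (ℂ → ℂ)) (η : ℝ) : IsOpen (SS K A η) := by
  rw [Metric.isOpen_iff]
  rintro u ⟨f, hf, r, hr, h⟩
  refine ⟨(η - r) / 2, by linarith, fun v hv => ⟨f, hf, r + (η - r) / 2, by linarith, fun z => ?_⟩⟩
  have h1 : ‖v z - u z‖ ≤ (η - r) / 2 := by
    have := ContinuousMap.dist_apply_le_dist (f := v) (g := u) z
    rw [dist_eq_norm] at this
    exact this.trans (Metric.mem_ball.1 hv).le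
  calc ‖v z - f z‖ = ‖(v z - u z) + (u z - f z)‖ := by congr 1; ring
    _ ≤ ‖v z - u z‖ + ‖u z - f z‖ := norm_add_le _ _
    _ ≤ r + (η - r) / 2 := by linarith [h z]

lemma near_iff (A : Set (ℂ → ℂ)) (η t : ℝ) :
    Near K A η t ↔ shape (fun z hz => (hKs z hz).2) t ∈ SS K A η := by
  constructor
  · rintro ⟨f, hf, r, hr, h⟩
    exact ⟨f, hf, r, hr, fun z => h z z.2⟩
  · rintro ⟨f, hf, r, hr, h⟩
    exact ⟨f, hf, r, hr, fun z hz => h ⟨z, hz⟩⟩

include hKs in
lemma near_open [CompactSpace K] (A : Set (ℂ → ℂ)) (η : ℝ) : IsOpen {t : ℝ | Near K A η t} := by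
  have : {t : ℝ | Near K A η t} = shape (fun z hz => (hKs z hz).2) ⁻¹' SS K A η := by
    ext t
    exact near_iff hKs A η t
  rw [this]
  exact (SS_open A η).preimage (shape_cont _)

/-- the weight of a class -/
noncomputable def wt [CompactSpace K] (A : Set (ℂ → ℂ)) (η : ℝ) {δ : ℝ} (hδ : 0 < δ) (u : C(K, ℂ)) : ℝ :=
  (thickenedIndicator hδ (SS K A η) u : NNReal)

lemma wt_nonneg [CompactSpace K] (A : Set (ℂ → ℂ)) (η : ℝ) {δ : ℝ} (hδ : 0 < δ) (u : C(K, ℂ)) :
    0 ≤ wt A η hδ u := NNReal.coe_nonneg _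

lemma wt_le [CompactSpace K] (A : Set (ℂ → ℂ)) (η : ℝ) {δ : ℝ} (hδ : 0 < δ) (u : C(K, ℂ)) :
    wt A η hδ u ≤ 1 := by
  unfold wt
  exact_mod_cast thickenedIndicator_le_one hδ _ u

lemma wt_lip [CompactSpace K] (A : Set (ℂ → ℂ)) (η : ℝ) {δ : ℝ} (hδ : 0 < δ) (u v : C(K, ℂ)) :
    |wt A η hδ u - wt A η hδ v| ≤ dist u v / δ := by
  have h := (lipschitzWith_thickenedIndicator hδ (SS K A η)).dist_le_mul u v
  rw [NNReal.dist_eq] at h
  unfold wt
  refine h.trans (le_of_eq ?_)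
  rw [NNReal.coe_inv, Real.coe_toNNReal _ hδ.le]
  ring

lemma wt_cont [CompactSpace K] (A : Set (ℂ → ℂ)) (η : ℝ) {δ : ℝ} (hδ : 0 < δ) :
    Continuous (wt (K := K) A η hδ) := by
  unfold wt
  exact NNReal.continuous_coe.comp (thickenedIndicator hδ (SS K A η)).continuous

lemma wt_one [CompactSpace K] {A : Set (ℂ → ℂ)} {η δ t : ℝ} (hδ : 0 < δ) (h : Near K A η t) :
    wt A η hδ (shape (fun z hz => (hKs z hz).2) t) = 1 := by
  unfold wt
  rw [thickenedIndicator_one hδ _ ((near_iff hKs A η t).1 h)]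
  simp

lemma wt_zero [CompactSpace K] {A : Set (ℂ → ℂ)} {η δ t : ℝ} (hδ : 0 < δ)
    (h : ¬ Near K A (η + δ) t) :
    wt A η hδ (shape (fun z hz => (hKs z hz).2) t) = 0 := by
  unfold wt
  rw [thickenedIndicator_zero hδ]
  · simp
  · intro h1
    apply h
    rw [Metric.mem_thickening_iff] at h1
    obtain ⟨v, ⟨f, hf, r, hr, h2⟩, hd⟩ := h1
    rw [near_iff hKs]
    refine ⟨f, hf, r + dist (shape (fun z hz => (hKs z hz).2) t) v, by linarith, fun z => ?_⟩
    have h3 : ‖shape (fun z hz => (hKs z hz).2) t z - v z‖ ≤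
        dist (shape (fun z hz => (hKs z hz).2) t) v := by
      have := ContinuousMap.dist_apply_le_dist (f := shape (fun z hz => (hKs z hz).2) t) (g := v) z
      rwa [dist_eq_norm] at this
    calc ‖shape (fun z hz => (hKs z hz).2) t z - f z‖ =
        ‖(shape (fun z hz => (hKs z hz).2) t z - v z) + (v z - f z)‖ := by congr 1; ring
      _ ≤ ‖shape (fun z hz => (hKs z hz).2) t z - v z‖ + ‖v z - f z‖ := norm_add_le _ _
      _ ≤ r + dist (shape (fun z hz => (hKs z hz).2) t) v := by linarith [h2 z]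

lemma wt_BAP [CompactSpace K] (hK : IsCompact K) (A : Set (ℂ → ℂ)) (η : ℝ) {δ : ℝ} (hδ : 0 < δ) :
    Continuous (fun t => wt A η hδ (shape (fun z hz => (hKs z hz).2) t)) ∧
      BAP (fun t => wt A η hδ (shape (fun z hz => (hKs z hz).2) t)) := by
  refine zeta_BAP hK hKs (k := 0) (fun _ => 0) (F := fun p => wt A η hδ p.1) (fun ε hε => ?_)
    ((wt_cont A η hδ).comp continuous_fst) (fun x => wt_nonneg _ _ _ _) (fun x => wt_le _ _ _ _)
  refine ⟨ε * δ, by positivity, fun u v x h => ?_⟩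
  refine (wt_lip A η hδ u v).trans ?_
  rw [div_le_iff₀ hδ]
  rw [ContinuousMap.dist_le (by positivity)]
  intro z
  rw [dist_eq_norm]
  exact (h z).le

end

/-- **windows relative to universality classes** -/
theorem near_windows {κ C ε θ : ℝ} (hκ : 0 < κ) (hC : 0 ≤ C) (hε : 0 < ε) (hθ0 : 0 ≤ θ)
    (hθ1 : θ < 1) {m k : ℕ} (hkm : k < m) :
    ∃ ℓ0 : ℝ, 1 ≤ ℓ0 ∧ ∀ K : Set ℂ, IsCompact K → (∀ z ∈ K, 1 / 2 < z.re ∧ z.re < 1) →
      ∀ (n : ℕ) (A : Fin n → Set (ℂ → ℂ)) (η η' : ℝ), η < η' →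
      ∃ c0 T0 : ℝ, 0 < c0 ∧ 10 ≤ T0 ∧ ∀ T : ℝ, T0 ≤ T → ∀ H : ℝ, κ * T ≤ H → H ≤ T →
        ∀ (a : Fin n → ℝ) (b : Fin m → ℝ) (ℓ : ℝ), (∀ i, 0 ≤ a i ∧ a i ≤ C * T) →
          (∀ j, 0 ≤ b j ∧ b j ≤ C * T) → ℓ0 ≤ ℓ → ℓ ≤ c0 * Real.log T →
        (m * ((2 - cc 1 - θ) / (1 - θ)) - k) / (m - k) *
            Ms T (T + H) (fun t => ∀ i, Near K (A i) η (t + a i)) - ε * H ≤
          Ms T (T + H) (fun t => (∀ i, Near K (A i) η' (t + a i)) ∧
            k < nw b (θ * ℓ) (2 * Real.pi * ℓ / Real.log T) t) := by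
  classical
  obtain ⟨ℓ0, hℓ0, hmw⟩ := many_windows hκ hC hε hθ0 hθ1 hkm
  refine ⟨ℓ0, hℓ0, fun K hK hKs n A η η' hη => ?_⟩
  have : CompactSpace K := isCompact_iff_compactSpace.1 hK
  have hδ : 0 < η' - η := by linarith
  set φ : Fin n → ℝ → ℝ := fun i t => wt (A i) η hδ (shape (fun z hz => (hKs z hz).2) t) with hφ
  have hφB : ∀ i, Continuous (φ i) ∧ BAP (φ i) := fun i => wt_BAP hKs hK (A i) η hδ
  have hφ0 : ∀ i t, 0 ≤ φ i t := fun i t => wt_nonneg _ _ _ _
  have hφ1 : ∀ i t, φ i t ≤ 1 := fun i t => wt_le _ _ _ _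
  obtain ⟨c0, T0, hc0, hT0, h⟩ := hmw n φ (fun i => (hφB i).1.measurable) hφ0 hφ1
    (fun i => (hφB i).2)
  refine ⟨c0, T0, hc0, hT0, fun T hT H hH1 hH2 a b ℓ ha hb hℓ1 hℓ2 => ?_⟩
  have key := h T hT H hH1 hH2 a b ℓ ha hb hℓ1 hℓ2
  have hH0 : 0 ≤ H := le_trans (by
    have : 0 ≤ T := by linarith
    positivity) hH1
  set r : ℝ := (m * ((2 - cc 1 - θ) / (1 - θ)) - k) / (m - k) with hr
  set W : Set ℝ := {t | t ∈ Set.Ioc T (T + H) ∧
    k < nw b (θ * ℓ) (2 * Real.pi * ℓ / Real.log T) t} with hW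
  set E : Set ℝ := {t | t ∈ Set.Ioc T (T + H) ∧ ∀ i, Near K (A i) η (t + a i)} with hE
  set E' : Set ℝ := {t | ∀ i, Near K (A i) η' (t + a i)} with hE'
  have hopen : ∀ x : ℝ, IsOpen {t : ℝ | ∀ i, Near K (A i) x (t + a i)} := by
    intro x
    have : {t : ℝ | ∀ i, Near K (A i) x (t + a i)} =
        ⋂ i, (fun t : ℝ => t + a i) ⁻¹' {t | Near K (A i) x t} := by
      ext t; simp
    rw [this]
    exact isOpen_iInter_of_finite fun i => (near_open hKs (A i) x).preimage (by fun_prop)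
  have hEm : MeasurableSet E := measurableSet_Ioc.inter (hopen η).measurableSet
  have hE'm : MeasurableSet E' := (hopen η').measurableSet
  have hFm : Measurable (FW φ a) := FW_meas (fun i => (hφB i).1.measurable) a
  have hF0 := FW_nonneg hφ0 a
  have hF1 := FW_le hφ0 hφ1 a
  have hIoc : volume (Set.Ioc T (T + H)) ≠ ⊤ := by rw [Real.volume_Ioc]; exact ENNReal.ofReal_ne_top
  have hFi : IntegrableOn (FW φ a) (Set.Ioc T (T + H)) := by
    have := (ii_of hFm hF0 hF1 T (T + H)).1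
    exact this
  -- lower bound for the integral
  have s1 : Ms T (T + H) (fun t => ∀ i, Near K (A i) η (t + a i)) ≤ ∫ t in T..(T + H), FW φ a t := by
    rw [intervalIntegral.integral_of_le (by linarith)]
    have e1 : Ms T (T + H) (fun t => ∀ i, Near K (A i) η (t + a i)) = ∫ t in E, FW φ a t := by
      have e2 : ∫ t in E, FW φ a t = ∫ t in E, (1 : ℝ) := by
        refine setIntegral_congr_fun hEm fun t ht => ?_
        show FW φ a t = 1
        unfold FW
        exact Finset.prod_eq_one fun i _ => wt_one hKs hδ (ht.2 i)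
      rw [e2, setIntegral_const, smul_eq_mul, mul_one]
      rfl
    rw [e1]
    exact setIntegral_mono_set hFi (Filter.Eventually.of_forall hF0)
      (Filter.Eventually.of_forall fun t ht => ht.1)
  -- upper bound
  have hWsub : W ⊆ Set.Ioc T (T + H) := fun t ht => ht.1
  have s2 : ∫ t in W, FW φ a t ≤ Ms T (T + H) (fun t => (∀ i, Near K (A i) η' (t + a i)) ∧
      k < nw b (θ * ℓ) (2 * Real.pi * ℓ / Real.log T) t) := by
    have e1 : ∫ t in W, FW φ a t ≤ ∫ t in W, E'.indicator (fun _ => (1 : ℝ)) t := by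
      refine setIntegral_mono (hFi.mono_set hWsub) ?_ fun t => ?_
      · have hi : IntegrableOn (E'.indicator fun _ => (1 : ℝ)) (Set.Ioc T (T + H)) :=
          (integrableOn_const hIoc).indicator hE'm
        exact hi.mono_set hWsub
      · show FW φ a t ≤ E'.indicator (fun _ => (1 : ℝ)) t
        by_cases ht : t ∈ E'
        · rw [Set.indicator_of_mem ht]
          exact hF1 t
        · rw [Set.indicator_of_notMem ht]
          have ht' : ∃ i, ¬ Near K (A i) η' (t + a i) := by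
            by_contra hcon
            push Not at hcon
            exact ht hcon
          obtain ⟨i, hi⟩ := ht'
          unfold FW
          refine (Finset.prod_eq_zero (Finset.mem_univ i) ?_).le
          refine wt_zero hKs hδ ?_
          rwa [show η + (η' - η) = η' by ring]
    refine e1.trans (le_of_eq ?_)
    rw [setIntegral_indicator hE'm, setIntegral_const, smul_eq_mul, mul_one]
    unfold Ms Measure.real
    congr 2
    ext t
    simp only [hW, hE', Set.mem_inter_iff, Set.mem_ofPred_eq]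
    tauto
  rcases le_or_gt 0 r with hr0 | hr0
  · have : r * Ms T (T + H) (fun t => ∀ i, Near K (A i) η (t + a i)) ≤
        r * ∫ t in T..(T + H), FW φ a t := by gcongr
    linarith
  · have h1 : r * Ms T (T + H) (fun t => ∀ i, Near K (A i) η (t + a i)) ≤ 0 :=
      mul_nonpos_of_nonpos_of_nonneg hr0.le ENNReal.toReal_nonneg
    have h2 : 0 ≤ Ms T (T + H) (fun t => (∀ i, Near K (A i) η' (t + a i)) ∧
      k < nw b (θ * ℓ) (2 * Real.pi * ℓ / Real.log T) t) := ENNReal.toReal_nonneg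
    have : 0 ≤ ε * H := by positivity
    linarith

/-- Voronin's theorem on long intervals -/
theorem voronin_long {K : Set ℂ} {f : ℂ → ℂ} (hK : IsCompact K)
    (hKs : ∀ z ∈ K, 1 / 2 < z.re ∧ z.re < 1)
    (hKc : IsConnected Kᶜ) (hf : ContinuousOn f K) (hd : DifferentiableOn ℂ f (interior K))
    (h0 : ∀ z ∈ interior K, f z ≠ 0) {η : ℝ} (hη : 0 < η) :
    ∃ c : ℝ, 0 < c ∧ ∀ κ : ℝ, 0 < κ → ∃ T0 : ℝ, ∀ T : ℝ, T0 ≤ T → ∀ H : ℝ, κ * T ≤ H → H ≤ T →
      c * H ≤ Ms T (T + H) (Near K {f} η) := by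
  classical
  have : CompactSpace K := isCompact_iff_compactSpace.1 hK
  obtain ⟨c, hc, hv⟩ := Pool.Agent.H510.UZ.voronin K f hK hKs hKc hf hd h0 (η / 2) (by positivity)
  have hδ : 0 < η / 2 := by positivity
  set φ : ℝ → ℝ := fun t => wt {f} (η / 2) hδ (shape (fun z hz => (hKs z hz).2) t) with hφ
  obtain ⟨hφc, hφB⟩ := wt_BAP hKs hK {f} (η / 2) hδ
  have hφ0 : ∀ t, 0 ≤ φ t := fun t => wt_nonneg _ _ _ _
  have hφ1 : ∀ t, φ t ≤ 1 := fun t => wt_le _ _ _ _
  obtain ⟨M, hM, hMi⟩ := BAP_mean hφc.measurable hφ0 hφ1 hφB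
  have hcM : c ≤ M := by
    refine ge_of_tendsto hM ?_
    filter_upwards [hv, eventually_gt_atTop (0 : ℝ)] with X hX hX0
    rw [le_div_iff₀ hX0]
    refine hX.trans ?_
    rw [intervalIntegral.integral_of_le hX0.le]
    set E : Set ℝ := {t | t ∈ Set.Ioc 0 X ∧ Near K {f} (η / 2) t} with hE
    have hEm : MeasurableSet E := measurableSet_Ioc.inter (near_open hKs {f} (η / 2)).measurableSet
    have e1 : Ms 0 X (Near K {f} (η / 2)) = ∫ t in E, φ t := by
      have e2 : ∫ t in E, φ t = ∫ t in E, (1 : ℝ) := by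
        refine setIntegral_congr_fun hEm fun t ht => ?_
        exact wt_one hKs hδ ht.2
      rw [e2, setIntegral_const, smul_eq_mul, mul_one]
      rfl
    rw [e1]
    exact setIntegral_mono_set (hφc.intervalIntegrable 0 X).1 (Filter.Eventually.of_forall hφ0)
      (Filter.Eventually.of_forall fun t ht => ht.1)
  refine ⟨c / 2, by positivity, fun κ hκ => ?_⟩
  obtain ⟨T0, hT0⟩ := hMi κ (c / 2) hκ (by positivity)
  refine ⟨max T0 1, fun T hT H hH1 hH2 => ?_⟩
  have hT1 : 1 ≤ T := (le_max_right _ _).trans hT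
  have hH0 : 0 ≤ H := le_trans (by positivity) hH1
  have h1 := (abs_le.1 (hT0 T ((le_max_left _ _).trans hT) H hH1 hH2)).1
  have h2 : c * H ≤ M * H := by gcongr
  have h3 : ∫ t in T..(T + H), φ t ≤ Ms T (T + H) (Near K {f} η) := by
    rw [intervalIntegral.integral_of_le (by linarith)]
    have hE'm : MeasurableSet {t : ℝ | Near K {f} η t} := (near_open hKs {f} η).measurableSet
    have hIoc : volume (Set.Ioc T (T + H)) ≠ ⊤ := by
      rw [Real.volume_Ioc]; exact ENNReal.ofReal_ne_top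
    have e1 : ∫ t in Set.Ioc T (T + H), φ t ≤
        ∫ t in Set.Ioc T (T + H), {t : ℝ | Near K {f} η t}.indicator (fun _ => (1 : ℝ)) t := by
      refine setIntegral_mono (hφc.intervalIntegrable _ _).1
        ((integrableOn_const hIoc).indicator hE'm) fun t => ?_
      show φ t ≤ {t : ℝ | Near K {f} η t}.indicator (fun _ => (1 : ℝ)) t
      by_cases ht : Near K {f} η t
      · rw [Set.indicator_of_mem (show t ∈ {t : ℝ | Near K {f} η t} from ht)]
        exact hφ1 t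
      · rw [Set.indicator_of_notMem (show t ∉ {t : ℝ | Near K {f} η t} from ht)]
        refine (wt_zero hKs hδ ?_).le
        rwa [show η / 2 + η / 2 = η by ring]
    refine e1.trans (le_of_eq ?_)
    rw [setIntegral_indicator hE'm, setIntegral_const, smul_eq_mul, mul_one]
    rfl
  linarith

end Pool.Agent.H493.WB
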