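import Pool.Agent.H493.WB.Fam

/-! Besicovitch almost periodic weights. -/

set_option autoImplicit false

open Complex Filter Topology Set MeasureTheory
open scoped BigOperators ComplexConjugate

namespace Pool.Agent.H493.WB

open H370 TH803TW H295SI Pool.Agent.H493.BS

/-- Besicovitch almost periodic functions on the positive half-line: approximation by
trigonometric polynomials in the mean, over dyadic intervals -/
def BAP (φ : ℝ → ℝ) : Prop := ∀ ε : ℝ, 0 < ε → ∃ (S : Finset ℝ) (c : ℝ → ℂ),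
  ∀ᶠ X : ℝ in atTop, ∫ t in X..(2 * X), |φ t - tp S c t| ≤ ε * X

lemma BAP_of_APu {φ : ℝ → ℝ} (h : APu φ) : BAP φ := by
  intro ε hε
  obtain ⟨S, c, hS⟩ := h ε hε
  refine ⟨S, c, ?_⟩
  filter_upwards [eventually_gt_atTop (0 : ℝ)] with X hX
  have h3 := intervalIntegral.norm_integral_le_of_norm_le_const (a := X) (b := 2 * X)
    (f := fun t => |φ t - tp S c t|) (C := ε) (fun t _ => by
      rw [Real.norm_eq_abs, abs_abs]; exact hS t)
  rw [show 2 * X - X = X by ring, abs_of_pos hX] at h3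
  exact (le_abs_self _).trans h3

/-- truncation to `[0, 1]` -/
noncomputable def clip (x : ℝ) : ℝ := max 0 (min 1 x)

lemma clip_cont : Continuous clip := by unfold clip; fun_prop

lemma clip_nonneg (x : ℝ) : 0 ≤ clip x := le_max_left _ _

lemma clip_le (x : ℝ) : clip x ≤ 1 := max_le zero_le_one (min_le_left _ _)

lemma clip_diff {a : ℝ} (b : ℝ) (h0 : 0 ≤ a) (h1 : a ≤ 1) : |a - clip b| ≤ |a - b| := by
  unfold clip
  rcases le_total b 0 with hb | hb
  · rw [min_eq_right (by linarith), max_eq_left hb, abs_of_nonneg (by linarith),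
      abs_of_nonneg (by linarith)]
    linarith
  · rcases le_total b 1 with hb' | hb'
    · rw [min_eq_right hb', max_eq_right hb]
    · rw [min_eq_left hb', max_eq_right (by norm_num), abs_of_nonpos (by linarith),
        abs_of_nonpos (by linarith)]
      linarith

lemma BAP_clip {φ : ℝ → ℝ} (hm : Measurable φ) (h0 : ∀ t, 0 ≤ φ t) (h1 : ∀ t, φ t ≤ 1)
    (h : BAP φ) {ε : ℝ} (hε : 0 < ε) :
    ∃ G : ℝ → ℝ, APu G ∧ (∀ t, 0 ≤ G t) ∧ (∀ t, G t ≤ 1) ∧ ∃ X0 : ℝ, 1 ≤ X0 ∧ ∀ X : ℝ, X0 ≤ X →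
      ∫ t in X..(2 * X), |φ t - G t| ≤ ε * X := by
  obtain ⟨S, c, hS⟩ := h ε hε
  obtain ⟨X1, hX1⟩ := hS.exists_forall_of_atTop
  have hG : APu fun t => clip (tp S c t) :=
    APu_comp (APu_of_TP (f := tp S c) ⟨S, c, fun _ => rfl⟩) clip_cont
  have hφi : ∀ a b, IntervalIntegrable φ volume a b := by
    intro a b
    exact bdd_ii hm (C := 1) (fun t => by rw [abs_of_nonneg (h0 t)]; exact h1 t) a b
  refine ⟨_, hG, fun t => clip_nonneg _, fun t => clip_le _, max X1 1, le_max_right _ _,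
    fun X hX => ?_⟩
  refine le_trans ?_ (hX1 X ((le_max_left _ _).trans hX))
  have hX1' : 1 ≤ X := (le_max_right _ _).trans hX
  refine intervalIntegral.integral_mono_on (by linarith)
    ((hφi _ _).sub (hG.cont.intervalIntegrable _ _)).abs
    ((hφi _ _).sub ((tp_cont S c).intervalIntegrable _ _)).abs fun t _ => ?_
  exact clip_diff _ (h0 t) (h1 t)

/-- a measurable version of the counting function of a window -/
noncomputable def nsm (A B s t : ℝ) : ℝ := ∑ z ∈ SZ A B, iv s z.im t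

lemma nsm_meas (A B s : ℝ) : Measurable (nsm A B s) :=
  Finset.measurable_fun_sum _ fun z _ => iv_meas _ _

lemma nsm_nonneg (A B s t : ℝ) : 0 ≤ nsm A B s t := Finset.sum_nonneg fun z _ => iv_nonneg _ _ _

lemma nsm_eq {A B s t : ℝ} (hA : 1 ≤ A) (h1 : A ≤ t) (h2 : t + s ≤ B) : nsm A B s t = ns t s :=
  (ns_eq hA h1 h2).symm

/-- the product weight, with shifts to the right -/
noncomputable def FW {n : ℕ} (φ : Fin n → ℝ → ℝ) (a : Fin n → ℝ) (t : ℝ) : ℝ := ∏ i, φ i (t + a i)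

lemma FW_nonneg {n : ℕ} {G : Fin n → ℝ → ℝ} (h0 : ∀ i t, 0 ≤ G i t) (b : Fin n → ℝ) (t : ℝ) :
    0 ≤ FW G b t := Finset.prod_nonneg fun i _ => h0 i _

lemma FW_le {n : ℕ} {G : Fin n → ℝ → ℝ} (h0 : ∀ i t, 0 ≤ G i t) (h1 : ∀ i t, G i t ≤ 1)
    (b : Fin n → ℝ) (t : ℝ) : FW G b t ≤ 1 := Finset.prod_le_one (fun i _ => h0 i _) fun i _ => h1 i _

lemma FW_meas {n : ℕ} {G : Fin n → ℝ → ℝ} (hm : ∀ i, Measurable (G i)) (b : Fin n → ℝ) :
    Measurable (FW G b) := by
  unfold FW
  exact Finset.measurable_fun_prod _ fun i _ => (hm i).comp (measurable_id.add_const _)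

lemma FW_PW {n : ℕ} (G : Fin n → ℝ → ℝ) (a : Fin n → ℝ) (b t : ℝ) :
    PW G (fun i => b - a i) (t + b) = FW G a t := by
  unfold PW FW
  refine Finset.prod_congr rfl fun i _ => ?_
  congr 1
  ring

lemma ii_of {f : ℝ → ℝ} (hf : Measurable f) (h0 : ∀ t, 0 ≤ f t) (h1 : ∀ t, f t ≤ 1) (a b : ℝ) :
    IntervalIntegrable f volume a b :=
  bdd_ii hf (C := 1) (fun t => by rw [abs_of_nonneg (h0 t)]; exact h1 t) a b

/-- the normalised truncated count -/
noncomputable def YY (ℓ s t : ℝ) : ℝ := min (ns t s / ℓ) 1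

lemma YY_nonneg {ℓ : ℝ} (hℓ : 0 < ℓ) (s t : ℝ) : 0 ≤ YY ℓ s t :=
  le_min (div_nonneg (ns_nonneg _ _) hℓ.le) zero_le_one

lemma YY_le (ℓ s t : ℝ) : YY ℓ s t ≤ 1 := min_le_right _ _

/-- products with truncated counts are integrable -/
lemma YY_ii {W : ℝ → ℝ} (hW : Measurable W) (h0 : ∀ t, 0 ≤ W t) (h1 : ∀ t, W t ≤ 1) {ℓ s b A B : ℝ}
    (hℓ : 0 < ℓ) (hA : 1 ≤ A) (hb : 0 ≤ b) (hAB : A ≤ B) :
    IntervalIntegrable (fun t => W t * YY ℓ s (t + b)) volume A B := by
  have hm : Measurable fun t => min (nsm A (B + b + s) s (t + b) / ℓ) 1 :=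
    (((nsm_meas _ _ _).comp (measurable_id.add_const _)).div_const _).min measurable_const
  have h2 : IntervalIntegrable (fun t => W t * min (nsm A (B + b + s) s (t + b) / ℓ) 1) volume A B := by
    refine ii_of (hW.mul hm) (fun t => mul_nonneg (h0 t) (le_min (div_nonneg (nsm_nonneg _ _ _ _) hℓ.le)
      zero_le_one)) (fun t => mul_le_one₀ (h1 t) (le_min (div_nonneg (nsm_nonneg _ _ _ _) hℓ.le)
      zero_le_one) (min_le_right _ _)) _ _
  refine h2.congr ?_
  intro t ht
  rw [Set.uIoc_of_le hAB] at ht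
  simp only
  unfold YY
  rw [nsm_eq hA (by linarith [ht.1]) (by linarith [ht.2])]

lemma ratio {n ℓ l : ℝ} (hn : 0 ≤ n) (hℓ : 0 < ℓ) (hl : ℓ ≤ l) : min n l / l ≤ min (n / ℓ) 1 := by
  have hl0 : 0 < l := by linarith
  rw [le_min_iff]
  constructor
  · calc min n l / l ≤ n / l := by gcongr; exact min_le_left _ _
      _ ≤ n / ℓ := by gcongr
  · rw [div_le_one hl0]
    exact min_le_right _ _

lemma L1_shift {φ G : ℝ → ℝ} (hφ : Measurable φ) (hφ0 : ∀ t, 0 ≤ φ t) (hφ1 : ∀ t, φ t ≤ 1)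
    (hG : Measurable G) (hG0 : ∀ t, 0 ≤ G t) (hG1 : ∀ t, G t ≤ 1) {X0 ε : ℝ} (hX0 : 1 ≤ X0)
    (h : ∀ X : ℝ, X0 ≤ X → ∫ t in X..(2 * X), |φ t - G t| ≤ ε * X) {T H a : ℝ} (hT : X0 ≤ T)
    (ha : 0 ≤ a) (hH : H ≤ T) :
    ∫ t in T..(T + H), |φ (t + a) - G (t + a)| ≤ ε * (T + a) := by
  have e1 : ∫ t in T..(T + H), |φ (t + a) - G (t + a)| = ∫ t in (T + a)..(T + H + a), |φ t - G t| :=
    intervalIntegral.integral_comp_add_right (fun t => |φ t - G t|) a
  rw [e1]
  have hi : ∀ a b, IntervalIntegrable (fun t => |φ t - G t|) volume a b := fun a b =>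
    ((ii_of hφ hφ0 hφ1 a b).sub (ii_of hG hG0 hG1 a b)).abs
  refine le_trans ?_ (h (T + a) (by linarith))
  have e2 : ∫ t in (T + a)..(2 * (T + a)), |φ t - G t| =
      (∫ t in (T + a)..(T + H + a), |φ t - G t|) + ∫ t in (T + H + a)..(2 * (T + a)), |φ t - G t| :=
    (intervalIntegral.integral_add_adjacent_intervals (hi _ _) (hi _ _)).symm
  rw [e2]
  have e3 : 0 ≤ ∫ t in (T + H + a)..(2 * (T + a)), |φ t - G t| :=
    intervalIntegral.integral_nonneg (by linarith) fun t _ => abs_nonneg _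
  linarith

/-- **windows of simple zeros relative to Besicovitch almost periodic weights** -/
theorem bes_core {κ K ε : ℝ} (hκ : 0 < κ) (hK : 0 ≤ K) (hε : 0 < ε) :
    ∃ ℓ0 : ℝ, 1 ≤ ℓ0 ∧ ∀ (n : ℕ) (φ : Fin n → ℝ → ℝ), (∀ i, Measurable (φ i)) →
      (∀ i t, 0 ≤ φ i t) → (∀ i t, φ i t ≤ 1) → (∀ i, BAP (φ i)) →
      ∃ c0 T0 : ℝ, 0 < c0 ∧ 10 ≤ T0 ∧ ∀ T : ℝ, T0 ≤ T → ∀ H : ℝ, κ * T ≤ H → H ≤ T →
        ∀ (a : Fin n → ℝ) (b ℓ : ℝ), (∀ i, 0 ≤ a i ∧ a i ≤ K * T) → 0 ≤ b → b ≤ K * T →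
          ℓ0 ≤ ℓ → ℓ ≤ c0 * Real.log T →
        (2 - cc 1) * (∫ t in T..(T + H), FW φ a t) - ε * H ≤
          ∫ t in T..(T + H), FW φ a t * YY ℓ (2 * Real.pi * ℓ / Real.log T) (t + b) := by
  classical
  have hpi := Real.pi_pos
  obtain ⟨K0, hK0, hfam⟩ := fam_core (κ := κ / (1 + K)) (ε := ε / 4) (by positivity) (by positivity)
  refine ⟨K0, hK0, fun n φ hm h0 h1 hB => ?_⟩
  set ε1 : ℝ := ε * κ / (8 * (n + 1) * (1 + K)) with hε1
  have hε1' : 0 < ε1 := by positivity
  have hcl := fun i => BAP_clip (hm i) (h0 i) (h1 i) (hB i) hε1'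
  choose G hG hG0 hG1 X0 hX0 hX using hcl
  obtain ⟨s0, T1, hs0, hT1, hcore⟩ := hfam n G hG hG0 hG1
  set X1 : ℝ := ∑ i, X0 i with hX1
  have hXi : ∀ i, X0 i ≤ X1 := fun i =>
    Finset.single_le_sum (f := X0) (fun i _ => by linarith [hX0 i]) (Finset.mem_univ i)
  refine ⟨s0 / (2 * Real.pi), max T1 X1, by positivity, hT1.trans (le_max_left _ _),
    fun T hT H hH1 hH2 a b ℓ ha hb0 hb1 hℓ1 hℓ2 => ?_⟩
  have hTT1 : T1 ≤ T := (le_max_left _ _).trans hT
  have hTX1 : X1 ≤ T := (le_max_right _ _).trans hT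
  have hT10 : 10 ≤ T := hT1.trans hTT1
  have hH0 : 0 ≤ H := le_trans (by positivity) hH1
  set L := Real.log T with hL
  have hL0 : 0 < L := Real.log_pos (by linarith)
  have hℓ0 : 0 < ℓ := by linarith
  set s : ℝ := 2 * Real.pi * ℓ / L with hs
  have hs_pos : 0 < s := by positivity
  set T' : ℝ := T + b with hT'
  have hT'T : T ≤ T' := by rw [hT']; linarith
  have hT'K : T' ≤ (1 + K) * T := by rw [hT']; linarith
  have hLL : L ≤ Real.log T' := Real.log_le_log (by linarith) hT'T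
  set l : ℝ := s * Real.log T' / (2 * Real.pi) with hl
  have hℓl : ℓ ≤ l := by
    have e : ℓ = s * L / (2 * Real.pi) := by rw [hs]; field_simp
    rw [hl]
    calc ℓ = s * L / (2 * Real.pi) := e
      _ ≤ s * Real.log T' / (2 * Real.pi) := by gcongr
  have hl0 : 0 < l := by linarith
  have hKs : K0 ≤ s * Real.log T' := by
    have e : s * Real.log T' = 2 * Real.pi * l := by rw [hl]; field_simp
    rw [e]
    have : (1 : ℝ) ≤ 2 * Real.pi := by linarith [Real.pi_gt_three]
    nlinarith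
  have hss : s ≤ s0 := by
    rw [hs, div_le_iff₀ hL0]
    calc 2 * Real.pi * ℓ ≤ 2 * Real.pi * (s0 / (2 * Real.pi) * L) := by gcongr
      _ = s0 * L := by field_simp
  have hκ' : κ / (1 + K) * T' ≤ H := by
    calc κ / (1 + K) * T' ≤ κ / (1 + K) * ((1 + K) * T) := by gcongr
      _ = κ * T := by field_simp
      _ ≤ H := hH1
  have key := hcore T' (by linarith) H hκ' (by linarith) (fun i => b - a i) s hKs hss
  rw [← hl] at key
  have hGm : ∀ i, Measurable (G i) := fun i => (hG i).cont.measurable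
  -- substitution
  have sub1 : ∫ t in T'..(T' + H), PW G (fun i => b - a i) t = ∫ t in T..(T + H), FW G a t := by
    have e := intervalIntegral.integral_comp_add_right (a := T) (b := T + H)
      (fun t => PW G (fun i => b - a i) t) b
    rw [hT', show T + b + H = T + H + b by ring, ← e]
    simp only [FW_PW]
  have sub2 : ∫ t in T'..(T' + H), PW G (fun i => b - a i) t * min (ns t s) l =
      ∫ t in T..(T + H), FW G a t * min (ns (t + b) s) l := by
    have e := intervalIntegral.integral_comp_add_right (a := T) (b := T + H)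
      (fun t => PW G (fun i => b - a i) t * min (ns t s) l) b
    rw [hT', show T + b + H = T + H + b by ring, ← e]
    simp only [FW_PW]
  rw [sub1, sub2] at key
  -- integrability
  have iG := ii_of (FW_meas hGm a) (FW_nonneg hG0 a) (FW_le hG0 hG1 a) T (T + H)
  have iφ := ii_of (FW_meas hm a) (FW_nonneg h0 a) (FW_le h0 h1 a) T (T + H)
  have iGY := YY_ii (s := s) (b := b) (A := T) (B := T + H) (FW_meas hGm a) (FW_nonneg hG0 a)
    (FW_le hG0 hG1 a) hℓ0 (by linarith) hb0 (by linarith)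
  have iφY := YY_ii (s := s) (b := b) (A := T) (B := T + H) (FW_meas hm a) (FW_nonneg h0 a)
    (FW_le h0 h1 a) hℓ0 (by linarith) hb0 (by linarith)
  have iGY' : IntervalIntegrable (fun t => FW G a t * min (ns (t + b) s) l) volume T (T + H) := by
    have h2 : IntervalIntegrable (fun t => FW G a t * min (nsm T (T + H + b + s) s (t + b)) l)
        volume T (T + H) := by
      have hmm : Measurable fun t => nsm T (T + H + b + s) s (t + b) :=
        (nsm_meas _ _ _).comp (measurable_id.add_const _)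
      refine bdd_ii ((FW_meas hGm a).mul (hmm.min measurable_const)) (C := l) (fun t => ?_) _ _
      have h3 := nsm_nonneg T (T + H + b + s) s (t + b)
      show |FW G a t * min (nsm T (T + H + b + s) s (t + b)) l| ≤ l
      rw [abs_of_nonneg (mul_nonneg (FW_nonneg hG0 _ _) (le_min h3 hl0.le))]
      calc FW G a t * min (nsm T (T + H + b + s) s (t + b)) l ≤ 1 * l :=
        mul_le_mul (FW_le hG0 hG1 _ _) (min_le_right _ _) (le_min h3 hl0.le) zero_le_one
        _ = l := one_mul _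
    refine h2.congr ?_
    intro t ht
    rw [Set.uIoc_of_le (by linarith)] at ht
    simp only
    rw [nsm_eq (by linarith) (by linarith [ht.1]) (by linarith [ht.2])]
  -- comparison of the windows
  have c1 : (∫ t in T..(T + H), FW G a t * min (ns (t + b) s) l) / l ≤
      ∫ t in T..(T + H), FW G a t * YY ℓ s (t + b) := by
    rw [← intervalIntegral.integral_div]
    refine intervalIntegral.integral_mono_on (by linarith) (iGY'.div_const _) iGY fun t _ => ?_
    rw [mul_div_assoc]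
    apply mul_le_mul_of_nonneg_left _ (FW_nonneg hG0 _ _)
    exact ratio (ns_nonneg _ _) hℓ0 hℓl
  have c2 : (2 - cc 1) * (∫ t in T..(T + H), FW G a t) - ε / 4 * H ≤
      ∫ t in T..(T + H), FW G a t * YY ℓ s (t + b) := by
    refine le_trans ?_ c1
    rw [le_div_iff₀ hl0]
    calc ((2 - cc 1) * (∫ t in T..(T + H), FW G a t) - ε / 4 * H) * l =
        (2 - cc 1) * (∫ t in T..(T + H), FW G a t) * l - ε / 4 * l * H := by ring
      _ ≤ _ := key
  -- comparison of the weights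
  have d1 : ∀ t, |FW φ a t - FW G a t| ≤ ∑ i, |φ i (t + a i) - G i (t + a i)| := fun t =>
    prod_diff _ _ _ (fun i => h0 i _) (fun i => h1 i _) (fun i => hG0 i _) (fun i => hG1 i _)
  have iD : ∀ i, IntervalIntegrable (fun t => |φ i (t + a i) - G i (t + a i)|) volume T (T + H) := by
    intro i
    refine IntervalIntegrable.abs (IntervalIntegrable.sub ?_ ?_)
    · exact ii_of ((hm i).comp (measurable_id.add_const _)) (fun t => h0 i _) (fun t => h1 i _) _ _
    · exact ii_of ((hGm i).comp (measurable_id.add_const _)) (fun t => hG0 i _) (fun t => hG1 i _) _ _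
  have d2 : ∫ t in T..(T + H), |FW φ a t - FW G a t| ≤ ε / 8 * H := by
    have e1 : ∫ t in T..(T + H), |FW φ a t - FW G a t| ≤
        ∫ t in T..(T + H), ∑ i, |φ i (t + a i) - G i (t + a i)| := by
      refine intervalIntegral.integral_mono_on (by linarith) (iφ.sub iG).abs ?_ fun t _ => d1 t
      have := IntervalIntegrable.sum Finset.univ fun i _ => iD i
      refine (funext fun t => ?_ : (fun t => ∑ i, |φ i (t + a i) - G i (t + a i)|) = _) ▸ this
      rw [Finset.sum_apply]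
    rw [intervalIntegral.integral_finsetSum fun i _ => iD i] at e1
    refine e1.trans ?_
    have e2 : ∀ i ∈ (Finset.univ : Finset (Fin n)),
        ∫ t in T..(T + H), |φ i (t + a i) - G i (t + a i)| ≤ ε1 * ((1 + K) * T) := by
      intro i _
      refine (L1_shift (hm i) (h0 i) (h1 i) (hGm i) (hG0 i) (hG1 i) (hX0 i) (hX i)
        ((hXi i).trans hTX1) (ha i).1 hH2).trans ?_
      have := (ha i).2
      gcongr
      linarith
    refine (Finset.sum_le_sum e2).trans ?_
    rw [Finset.sum_const, Finset.card_univ, Fintype.card_fin, nsmul_eq_mul]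
    have hn0 : (0 : ℝ) ≤ n := Nat.cast_nonneg n
    calc (n : ℝ) * (ε1 * ((1 + K) * T)) ≤ (n + 1) * (ε1 * ((1 + K) * T)) := by gcongr; linarith
      _ = ε / 8 * (κ * T) := by rw [hε1]; field_simp
      _ ≤ ε / 8 * H := by gcongr
  have d3 : |(∫ t in T..(T + H), FW φ a t) - ∫ t in T..(T + H), FW G a t| ≤ ε / 8 * H := by
    rw [← intervalIntegral.integral_sub iφ iG]
    exact (intervalIntegral.abs_integral_le_integral_abs (by linarith)).trans d2
  have d4 : |(∫ t in T..(T + H), FW φ a t * YY ℓ s (t + b)) -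
      ∫ t in T..(T + H), FW G a t * YY ℓ s (t + b)| ≤ ε / 8 * H := by
    rw [← intervalIntegral.integral_sub iφY iGY]
    refine (intervalIntegral.abs_integral_le_integral_abs (by linarith)).trans (le_trans ?_ d2)
    refine intervalIntegral.integral_mono_on (by linarith) (iφY.sub iGY).abs (iφ.sub iG).abs
      fun t _ => ?_
    rw [← sub_mul, abs_mul, abs_of_nonneg (YY_nonneg hℓ0 _ _)]
    calc |FW φ a t - FW G a t| * YY ℓ s (t + b) ≤ |FW φ a t - FW G a t| * 1 := by
          gcongr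
          exact YY_le _ _ _
      _ = _ := mul_one _
  have d5 : |(2 - cc 1) * ((∫ t in T..(T + H), FW φ a t) - ∫ t in T..(T + H), FW G a t)| ≤
      2 * (ε / 8 * H) := by
    rw [abs_mul]
    exact mul_le_mul p_bd d3 (abs_nonneg _) (by norm_num)
  have d6 := (abs_le.1 d5).2
  have d7 := (abs_le.1 d4).1
  have d8 : 0 ≤ ε * H := by positivity
  linarith

end Pool.Agent.H493.WB
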