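import Pool.Agent.H493.WB.Pair
import Pool.Agent.H510.UZ.Ms

/-! Functions of zeta to the right of the critical line are Besicovitch almost periodic. -/

set_option autoImplicit false

open Complex Filter Topology Set MeasureTheory
open scoped BigOperators ComplexConjugate

namespace Pool.Agent.H493.WB

open H370 TH803TW H295SI Pool.Agent.H493.BS

lemma BAP_of_near {φ : ℝ → ℝ} (hφ : ∀ a b, IntervalIntegrable φ volume a b)
    (h : ∀ ε : ℝ, 0 < ε → ∃ G : ℝ → ℝ, APu G ∧
      ∀ᶠ X : ℝ in atTop, ∫ t in X..(2 * X), |φ t - G t| ≤ ε * X) : BAP φ := by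
  intro ε hε
  obtain ⟨G, hG, hX⟩ := h (ε / 2) (by positivity)
  obtain ⟨S, c, hS⟩ := hG (ε / 2) (by positivity)
  refine ⟨S, c, ?_⟩
  filter_upwards [hX, eventually_gt_atTop (0 : ℝ)] with X hX hX0
  have i1 : IntervalIntegrable (fun t => |φ t - G t|) volume X (2 * X) :=
    ((hφ _ _).sub (hG.cont.intervalIntegrable _ _)).abs
  have h1 : ∫ t in X..(2 * X), |φ t - tp S c t| ≤ ∫ t in X..(2 * X), (|φ t - G t| + ε / 2) := by
    refine intervalIntegral.integral_mono_on (by linarith)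
      ((hφ _ _).sub ((tp_cont S c).intervalIntegrable _ _)).abs
      (i1.add intervalIntegrable_const) fun t _ => ?_
    calc |φ t - tp S c t| = |(φ t - G t) + (G t - tp S c t)| := by congr 1; ring
      _ ≤ |φ t - G t| + |G t - tp S c t| := abs_add_le _ _
      _ ≤ |φ t - G t| + ε / 2 := by gcongr; exact hS t
  rw [intervalIntegral.integral_add i1 intervalIntegrable_const, intervalIntegral.integral_const,
    smul_eq_mul] at h1
  linarith

/-- from dyadic intervals to initial segments -/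
lemma dyad {φ G : ℝ → ℝ} (hi : ∀ a b, IntervalIntegrable (fun t => |φ t - G t|) volume a b)
    {ε X0 : ℝ} (hε : 0 < ε) (hX0 : 1 ≤ X0)
    (h : ∀ X : ℝ, X0 ≤ X → ∫ t in X..(2 * X), |φ t - G t| ≤ ε * X) (n : ℕ) :
    ∀ X : ℝ, X0 ≤ X → X ≤ 2 ^ n * X0 → ∫ t in X0..X, |φ t - G t| ≤ 2 * ε * X := by
  induction n with
  | zero =>
    intro X h1 h2
    have : X = X0 := le_antisymm (by simpa using h2) h1
    rw [this, intervalIntegral.integral_same]
    positivity
  | succ n ih =>
    intro X h1 h2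
    have h0 : 0 ≤ X := by linarith
    rcases le_total X0 (X / 2) with h3 | h3
    · have a1 := ih (X / 2) h3 (by rw [pow_succ] at h2; linarith)
      have a2 := h (X / 2) h3
      rw [show 2 * (X / 2) = X by ring] at a2
      have a3 := intervalIntegral.integral_add_adjacent_intervals (hi X0 (X / 2)) (hi (X / 2) X)
      rw [← a3]
      have : 0 ≤ ε * X := by positivity
      linarith
    · have a2 := h X0 le_rfl
      have a3 := intervalIntegral.integral_add_adjacent_intervals (hi X0 X) (hi X (2 * X0))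
      have a4 : 0 ≤ ∫ t in X..(2 * X0), |φ t - G t| :=
        intervalIntegral.integral_nonneg (by linarith) fun t _ => abs_nonneg _
      have a5 : ε * X0 ≤ ε * X := by gcongr
      have : 0 ≤ ε * X := by positivity
      linarith

lemma dyad' {φ G : ℝ → ℝ} (hi : ∀ a b, IntervalIntegrable (fun t => |φ t - G t|) volume a b)
    {ε : ℝ} (hε : 0 < ε) (h : ∀ᶠ X : ℝ in atTop, ∫ t in X..(2 * X), |φ t - G t| ≤ ε * X) :
    ∀ᶠ X : ℝ in atTop, ∫ t in (0 : ℝ)..X, |φ t - G t| ≤ 3 * ε * X := by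
  obtain ⟨X1, hX1⟩ := h.exists_forall_of_atTop
  set X0 : ℝ := max X1 1 with hX0
  have h0 : 1 ≤ X0 := le_max_right _ _
  have hd := dyad hi hε h0 fun X hX => hX1 X ((le_max_left _ _).trans hX)
  set C : ℝ := ∫ t in (0 : ℝ)..X0, |φ t - G t| with hC
  filter_upwards [eventually_ge_atTop X0, eventually_ge_atTop (C / ε)] with X h1 h2
  obtain ⟨n, hn⟩ := pow_unbounded_of_one_lt (X / X0) (by norm_num : (1 : ℝ) < 2)
  have h3 : X ≤ 2 ^ n * X0 := by
    rw [div_lt_iff₀ (by linarith)] at hn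
    exact hn.le
  have a1 := hd n X h1 h3
  have a2 := intervalIntegral.integral_add_adjacent_intervals (hi 0 X0) (hi X0 X)
  rw [← a2]
  have a3 : C ≤ ε * X := by
    rw [div_le_iff₀ hε] at h2
    linarith
  linarith

/-- the standard definition -/
lemma std_of_BAP {φ : ℝ → ℝ} (hφ : ∀ a b, IntervalIntegrable φ volume a b) (h : BAP φ) {ε : ℝ}
    (hε : 0 < ε) : ∃ (S : Finset ℝ) (c : ℝ → ℂ), ∀ᶠ X : ℝ in atTop,
      ∫ t in (0 : ℝ)..X, |φ t - tp S c t| ≤ ε * X := by
  obtain ⟨S, c, hS⟩ := h (ε / 3) (by positivity)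
  refine ⟨S, c, ?_⟩
  have := dyad' (fun a b => ((hφ a b).sub ((tp_cont S c).intervalIntegrable a b)).abs)
    (by positivity) hS
  filter_upwards [this] with X hX
  linarith

lemma BAP_of_std {φ : ℝ → ℝ} (hφ : ∀ a b, IntervalIntegrable φ volume a b)
    (h : ∀ ε : ℝ, 0 < ε → ∃ (S : Finset ℝ) (c : ℝ → ℂ), ∀ᶠ X : ℝ in atTop,
      ∫ t in (0 : ℝ)..X, |φ t - tp S c t| ≤ ε * X) : BAP φ := by
  intro ε hε
  obtain ⟨S, c, hS⟩ := h (ε / 2) (by positivity)
  refine ⟨S, c, ?_⟩
  have h2 : Tendsto (fun X : ℝ => 2 * X) atTop atTop :=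
    tendsto_id.const_mul_atTop (by norm_num)
  filter_upwards [h2.eventually hS, eventually_gt_atTop (0 : ℝ)] with X hX hX0
  have hi := fun a b => ((hφ a b).sub ((tp_cont S c).intervalIntegrable a b)).abs
  have a1 := intervalIntegral.integral_add_adjacent_intervals (hi 0 X) (hi X (2 * X))
  have a2 : 0 ≤ ∫ t in (0 : ℝ)..X, |φ t - tp S c t| :=
    intervalIntegral.integral_nonneg hX0.le fun t _ => abs_nonneg _
  linarith

/-- Besicovitch almost periodic functions have mean values, also over long intervals -/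
lemma BAP_mean {φ : ℝ → ℝ} (hm : Measurable φ) (h0 : ∀ t, 0 ≤ φ t) (h1 : ∀ t, φ t ≤ 1)
    (h : BAP φ) : ∃ M : ℝ, Tendsto (fun X : ℝ => (∫ t in (0 : ℝ)..X, φ t) / X) atTop (𝓝 M) ∧
      ∀ κ ε : ℝ, 0 < κ → 0 < ε → ∃ T0 : ℝ, ∀ T : ℝ, T0 ≤ T → ∀ H : ℝ, κ * T ≤ H → H ≤ T →
        |(∫ t in T..(T + H), φ t) - M * H| ≤ ε * H := by
  have hi := fun a b => ii_of hm h0 h1 a b
  have hcau : Cauchy (map (fun X : ℝ => (∫ t in (0 : ℝ)..X, φ t) / X) atTop) := by
    rw [Metric.cauchy_iff]
    refine ⟨inferInstance, fun ε hε => ?_⟩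
    obtain ⟨S, c, hS⟩ := std_of_BAP hi h (ε := ε / 8) (by positivity)
    obtain ⟨M, hM⟩ := APu_mean (APu_of_TP (f := tp S c) ⟨S, c, fun _ => rfl⟩)
    obtain ⟨S', c', h0', hS', hM'⟩ := hM (ε / 16) (by positivity)
    have h2 : ∀ᶠ X : ℝ in atTop, |(∫ t in (0 : ℝ)..X, tp S' c' t) / X - (c' 0).re| < ε / 16 := by
      have := (Metric.tendsto_nhds.1 (tp_mean c' h0')) (ε / 16) (by positivity)
      filter_upwards [this] with X hX
      rwa [Real.dist_eq] at hX
    refine ⟨{y | |y - M| < ε / 3}, ?_, fun x hx y hy => ?_⟩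
    · rw [mem_map]
      filter_upwards [h2, hS, eventually_gt_atTop (0 : ℝ)] with X hX hX2 hX0
      have h3 : |(∫ t in (0 : ℝ)..X, φ t) / X - (∫ t in (0 : ℝ)..X, tp S c t) / X| ≤ ε / 8 := by
        rw [← sub_div, abs_div, abs_of_pos hX0, div_le_iff₀ hX0,
          ← intervalIntegral.integral_sub (hi _ _) ((tp_cont S c).intervalIntegrable _ _)]
        exact (intervalIntegral.abs_integral_le_integral_abs hX0.le).trans hX2
      have h4 : |(∫ t in (0 : ℝ)..X, tp S c t) / X - (∫ t in (0 : ℝ)..X, tp S' c' t) / X| ≤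
          ε / 16 := by
        rw [← sub_div, abs_div, abs_of_pos hX0, div_le_iff₀ hX0,
          ← intervalIntegral.integral_sub ((tp_cont S c).intervalIntegrable _ _)
            ((tp_cont S' c').intervalIntegrable _ _)]
        have h3 := intervalIntegral.norm_integral_le_of_norm_le_const (a := 0) (b := X)
          (f := fun t => tp S c t - tp S' c' t) (C := ε / 16) (fun t _ => hS' t)
        rwa [sub_zero, abs_of_pos hX0, Real.norm_eq_abs] at h3
      simp only [Set.mem_preimage, Set.mem_ofPred_eq]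
      rw [abs_lt] at *
      rw [abs_le] at *
      constructor <;> linarith [h3.1, h3.2, h4.1, h4.2, hX.1, hX.2, hM'.1, hM'.2]
    · rw [Real.dist_eq]
      simp only [Set.mem_ofPred_eq] at hx hy
      rw [abs_lt] at *
      constructor <;> linarith [hx.1, hx.2, hy.1, hy.2]
  obtain ⟨M, hM⟩ := cauchy_map_iff_exists_tendsto.1 hcau
  refine ⟨M, hM, fun κ ε hκ hε => ?_⟩
  set η : ℝ := ε * κ / 3 with hη
  have hη0 : 0 < η := by positivity
  have h2 := (Metric.tendsto_nhds.1 hM) η hη0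
  obtain ⟨T1, hT1⟩ := h2.exists_forall_of_atTop
  refine ⟨max T1 1, fun T hT H hH1 hH2 => ?_⟩
  have hT0 : 1 ≤ T := (le_max_right _ _).trans hT
  have hH0 : 0 ≤ H := le_trans (by positivity) hH1
  have key : ∀ X : ℝ, T ≤ X → |(∫ t in (0 : ℝ)..X, φ t) - M * X| ≤ η * X := by
    intro X hX
    have hX0 : 0 < X := by linarith
    have h3 := hT1 X (((le_max_left _ _).trans hT).trans hX)
    rw [Real.dist_eq] at h3
    have : (∫ t in (0 : ℝ)..X, φ t) - M * X = ((∫ t in (0 : ℝ)..X, φ t) / X - M) * X := by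
      field_simp
    rw [this, abs_mul, abs_of_pos hX0]
    gcongr
  have a1 := key T le_rfl
  have a2 := key (T + H) (by linarith)
  have e1 : ∫ t in T..(T + H), φ t = (∫ t in (0 : ℝ)..(T + H), φ t) - ∫ t in (0 : ℝ)..T, φ t := by
    rw [intervalIntegral.integral_interval_sub_left (hi _ _) (hi _ _)]
  rw [e1]
  have h6 : η * (T + H) + η * T ≤ ε * H := by
    have h7 : 3 * η * T ≤ ε * H := by
      calc 3 * η * T = ε * (κ * T) := by rw [hη]; ring
        _ ≤ ε * H := by gcongr
    have h8 : η * H ≤ η * T := by gcongr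
    linarith
  rw [abs_le] at *
  constructor <;> linarith [a1.1, a1.2, a2.1, a2.2]

/-! ### zeta to the right of the critical line -/

section zeta

variable {K : Set ℂ} (hK1 : ∀ z ∈ K, z.re < 1)

/-- the function `z ↦ ζ(z + it)` on `K` -/
noncomputable def shape (t : ℝ) : C(K, ℂ) where
  toFun z := riemannZeta ((z : ℂ) + t * I)
  continuous_toFun := by
    rw [continuous_iff_continuousAt]
    intro z
    have h1 : ContinuousAt riemannZeta ((z : ℂ) + t * I) := by
      refine (differentiableAt_riemannZeta fun h => ?_).continuousAt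
      have h2 := congrArg Complex.re h
      simp at h2
      linarith [hK1 z z.2]
    exact ContinuousAt.comp (f := fun z : K => (z : ℂ) + t * I) h1 (by fun_prop)

lemma shape_cont : Continuous (shape hK1) := by
  refine ContinuousMap.continuous_of_continuous_uncurry _ ?_
  rw [continuous_iff_continuousAt]
  rintro ⟨t, z⟩
  have h1 : ContinuousAt riemannZeta ((z : ℂ) + t * I) := by
    refine (differentiableAt_riemannZeta fun h => ?_).continuousAt
    have h2 := congrArg Complex.re h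
    simp at h2
    linarith [hK1 z z.2]
  exact ContinuousAt.comp (f := fun p : ℝ × K => (p.2 : ℂ) + p.1 * I) (x := (t, z)) h1 (by fun_prop)

/-- the Dirichlet polynomial on `K` -/
noncomputable def dsh (K : Set ℂ) (N : ℕ) (t : ℝ) : C(K, ℂ) where
  toFun z := ZU.DN N ((z : ℂ) + t * I)
  continuous_toFun := (Pool.Agent.H510.UZ.DN_diff N).continuous.comp (by fun_prop)

/-- the function `n^{-z}` on `K` -/
noncomputable def pw (K : Set ℂ) (j : ℕ) : C(K, ℂ) where
  toFun z := ((j + 1 : ℕ) : ℂ) ^ (-(z : ℂ))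
  continuous_toFun := by
    refine Continuous.const_cpow (by fun_prop) (Or.inl ?_)
    exact_mod_cast Nat.succ_ne_zero j

/-- the frequencies -/
noncomputable def fr (N : ℕ) (j : Fin N) : ℝ := -Real.log ((j : ℕ) + 1 : ℕ) / (2 * Real.pi)

/-- the Dirichlet polynomial as a function on the torus -/
noncomputable def Fr (K : Set ℂ) (N : ℕ) (x : UnitAddTorus (Fin N)) : C(K, ℂ) :=
  ∑ j : Fin N, (fourier 1 (x j) : ℂ) • pw K j

lemma Fr_cont (K : Set ℂ) (N : ℕ) : Continuous (Fr K N) := by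
  unfold Fr
  refine continuous_finset_sum _ fun j _ => ?_
  exact (((fourier 1).continuous.comp (continuous_apply j)).smul continuous_const)

lemma sum_shift (N : ℕ) (f : ℕ → ℂ) : ∑ n ∈ Finset.Icc 1 N, f n = ∑ j : Fin N, f (j + 1) := by
  induction N with
  | zero => simp
  | succ N ih =>
    rw [Finset.sum_Icc_succ_top (by omega), ih, Fin.sum_univ_castSucc]
    simp

lemma Fr_torusPt (K : Set ℂ) (N : ℕ) (t : ℝ) : Fr K N (torusPt (fr N) t) = dsh K N t := by
  ext z
  have e1 : dsh K N t z = ∑ n ∈ Finset.Icc 1 N, ((n : ℕ) : ℂ) ^ (-((z : ℂ) + t * I)) := rfl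
  rw [e1, sum_shift]
  unfold Fr
  rw [ContinuousMap.sum_apply]
  refine Finset.sum_congr rfl fun j _ => ?_
  rw [ContinuousMap.smul_apply, smul_eq_mul]
  have e2 : pw K j z = (((j : ℕ) + 1 : ℕ) : ℂ) ^ (-(z : ℂ)) := rfl
  have e3 : torusPt (fr N) t j = ((fr N j * t : ℝ) : UnitAddCircle) := rfl
  rw [e2, e3, fourier_coe_apply]
  unfold fr
  have hn : (((j : ℕ) + 1 : ℕ) : ℂ) ≠ 0 := by exact_mod_cast Nat.succ_ne_zero (j : ℕ)
  rw [neg_add, Complex.cpow_add _ _ hn, mul_comm]
  congr 1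
  rw [Complex.cpow_def_of_ne_zero hn, ← Complex.natCast_log]
  congr 1
  have hpi : (Real.pi : ℂ) ≠ 0 := by exact_mod_cast Real.pi_ne_zero
  push_cast
  field_simp

end zeta

/-- mean square approximation of zeta by Dirichlet polynomials on a compact set -/
lemma shape_ms {K : Set ℂ} (hK : IsCompact K) (hKs : ∀ z ∈ K, 1 / 2 < z.re ∧ z.re < 1) {ε : ℝ}
    (hε : 0 < ε) : ∃ (N : ℕ) (g : ℝ → ℝ), Continuous g ∧ (∀ t, 0 ≤ g t) ∧
      (∀ (t : ℝ) (z : K), ‖shape (fun z hz => (hKs z hz).2) t z - dsh K N t z‖ ^ 2 ≤ g t) ∧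
      ∀ᶠ X : ℝ in atTop, ∫ t in X..(2 * X), g t ≤ ε * X := by
  obtain ⟨a, b, B, h1, h2, h3, h4, hsub⟩ := ZU.J_f.exists_rectV K hK hKs
  obtain ⟨C, hC, hpt⟩ := Pool.Agent.H510.UZ.pt a b ((1 / 2 + a) / 2) ((b + 1) / 2) B (by linarith) h2
    (by linarith) (by linarith) h4
  obtain ⟨N, hGc, T0, hT0, hG⟩ := Pool.Agent.H510.UZ.G_mean ((1 / 2 + a) / 2) ((b + 1) / 2) (B + 2)
    (by linarith) (by linarith) (by linarith) (by linarith) (ε / (2 * C)) (by positivity)
  have hG0 := Pool.Agent.H510.UZ.G_nonneg ((1 / 2 + a) / 2) ((b + 1) / 2) (B + 2) N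
  refine ⟨N, fun t => C * Pool.Agent.H510.UZ.G ((1 / 2 + a) / 2) ((b + 1) / 2) (B + 2) N t,
    continuous_const.mul hGc, fun t => mul_nonneg hC.le (hG0 t), fun t z => ?_, ?_⟩
  · exact hpt N t t (by simp) z (hsub z.2)
  · filter_upwards [eventually_ge_atTop T0] with X hX
    have hX0 : 0 < X := lt_of_lt_of_le hT0 hX
    have a1 := hG (2 * X) (by linarith)
    rw [intervalIntegral.integral_const_mul]
    have a2 := intervalIntegral.integral_add_adjacent_intervals
      (hGc.intervalIntegrable (μ := volume) 0 X) (hGc.intervalIntegrable X (2 * X))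
    have a3 : 0 ≤ ∫ t in (0 : ℝ)..X, Pool.Agent.H510.UZ.G ((1 / 2 + a) / 2) ((b + 1) / 2) (B + 2) N t :=
      intervalIntegral.integral_nonneg hX0.le fun t _ => hG0 t
    have a4 : ∫ t in X..(2 * X), Pool.Agent.H510.UZ.G ((1 / 2 + a) / 2) ((b + 1) / 2) (B + 2) N t ≤
        ε / (2 * C) * (2 * X) := by linarith
    calc C * ∫ t in X..(2 * X), Pool.Agent.H510.UZ.G ((1 / 2 + a) / 2) ((b + 1) / 2) (B + 2) N t ≤
        C * (ε / (2 * C) * (2 * X)) := by gcongr
      _ = ε * X := by field_simp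

/-- **functions of zeta to the right of the critical line and of phases** -/
theorem zeta_BAP {K : Set ℂ} (hK : IsCompact K) (hKs : ∀ z ∈ K, 1 / 2 < z.re ∧ z.re < 1) {k : ℕ}
    (α : Fin k → ℝ) {F : C(K, ℂ) × UnitAddTorus (Fin k) → ℝ}
    (hF : ∀ ε : ℝ, 0 < ε → ∃ δ : ℝ, 0 < δ ∧ ∀ (u v : C(K, ℂ)) (x : UnitAddTorus (Fin k)),
      (∀ z, ‖u z - v z‖ < δ) → |F (u, x) - F (v, x)| ≤ ε) (hFc : Continuous F)
    (h0 : ∀ x, 0 ≤ F x) (h1 : ∀ x, F x ≤ 1) :
    Continuous (fun t => F (shape (fun z hz => (hKs z hz).2) t, torusPt α t)) ∧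
      BAP (fun t => F (shape (fun z hz => (hKs z hz).2) t, torusPt α t)) := by
  have htc : Continuous (torusPt α) := by
    unfold torusPt
    exact continuous_pi fun j => (AddCircle.continuous_mk' (1 : ℝ)).comp (by fun_prop)
  set sh := shape (K := K) (fun z hz => (hKs z hz).2) with hsh
  have hcont : Continuous fun t => F (sh t, torusPt α t) :=
    hFc.comp ((shape_cont _).prodMk htc)
  refine ⟨hcont, BAP_of_near (fun a b => hcont.intervalIntegrable a b) fun ε hε => ?_⟩
  obtain ⟨δ, hδ, hFδ⟩ := hF (ε / 2) (by positivity)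
  obtain ⟨N, g, hg, hg0, hg1, hg2⟩ := shape_ms hK hKs (ε := ε / 2 * δ ^ 2) (by positivity)
  -- the approximation
  set Ψ : C(UnitAddTorus (Fin (N + k)), ℝ) :=
    ⟨fun x => F (Fr K N (fun j => x (Fin.castAdd k j)), fun j => x (Fin.natAdd N j)), by
      refine hFc.comp (Continuous.prodMk ?_ ?_)
      · exact (Fr_cont K N).comp (continuous_pi fun j => continuous_apply _)
      · exact continuous_pi fun j => continuous_apply _⟩ with hΨ
  have hΨt : ∀ t, Ψ (torusPt (Fin.append (fr N) α) t) = F (dsh K N t, torusPt α t) := by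
    intro t
    simp only [hΨ, ContinuousMap.coe_mk]
    rw [← Fr_torusPt]
    congr 2
    · congr 1
      funext j
      unfold torusPt
      rw [Fin.append_left]
    · funext j
      unfold torusPt
      rw [Fin.append_right]
  have hAP := APu_torus (Fin.append (fr N) α) Ψ
  refine ⟨fun t => Ψ (torusPt (Fin.append (fr N) α) t), hAP, ?_⟩
  filter_upwards [hg2, eventually_gt_atTop (0 : ℝ)] with X hX hX0
  have hbd : ∀ t, |F (sh t, torusPt α t) - Ψ (torusPt (Fin.append (fr N) α) t)| ≤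
      ε / 2 + g t / δ ^ 2 := by
    intro t
    rw [hΨt]
    by_cases h : g t < δ ^ 2
    · have h2 : ∀ z, ‖sh t z - dsh K N t z‖ < δ := by
        intro z
        have h3 := (hg1 t z).trans_lt h
        exact lt_of_pow_lt_pow_left₀ 2 hδ.le h3
      have h3 := hFδ (sh t) (dsh K N t) (torusPt α t) h2
      have : 0 ≤ g t / δ ^ 2 := div_nonneg (hg0 t) (by positivity)
      linarith
    · push Not at h
      have h2 : 1 ≤ g t / δ ^ 2 := by rwa [le_div_iff₀ (by positivity), one_mul]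
      have a1 := h0 (sh t, torusPt α t)
      have a2 := h1 (sh t, torusPt α t)
      have a3 := h0 (dsh K N t, torusPt α t)
      have a4 := h1 (dsh K N t, torusPt α t)
      rw [abs_le]
      constructor <;> linarith
  have h2 : ∫ t in X..(2 * X), |F (sh t, torusPt α t) - Ψ (torusPt (Fin.append (fr N) α) t)| ≤
      ∫ t in X..(2 * X), (ε / 2 + g t / δ ^ 2) := by
    refine intervalIntegral.integral_mono_on (by linarith)
      ((hcont.intervalIntegrable _ _).sub (hAP.cont.intervalIntegrable _ _)).abs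
      (intervalIntegrable_const.add ((hg.intervalIntegrable _ _).div_const _)) fun t _ => hbd t
  rw [intervalIntegral.integral_add intervalIntegrable_const ((hg.intervalIntegrable _ _).div_const _),
    intervalIntegral.integral_const, intervalIntegral.integral_div, smul_eq_mul] at h2
  have h3 : (∫ t in X..(2 * X), g t) / δ ^ 2 ≤ ε / 2 * X := by
    rw [div_le_iff₀ (by positivity)]
    calc ∫ t in X..(2 * X), g t ≤ ε / 2 * δ ^ 2 * X := hX
      _ = _ := by ring
  linarith

end Pool.Agent.H493.WB
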