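import Pool.Agent.H493.WB.Win

/-! Families of almost periodic weights: products of translates. -/

set_option autoImplicit false

open Complex Filter Topology Set MeasureTheory
open scoped BigOperators ComplexConjugate

namespace Pool.Agent.H493.WB

open H370 TH803TW H295SI Pool.Agent.H493.BS

/-- continuous functions on a torus along any line are almost periodic -/
lemma APu_torus {k : ℕ} (α : Fin k → ℝ) (f : C(UnitAddTorus (Fin k), ℝ)) :
    APu (fun t => f (torusPt α t)) := by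
  classical
  intro ε hε
  set g : C(UnitAddTorus (Fin k), ℂ) := ⟨fun x => (f x : ℂ), by fun_prop⟩ with hg
  have hmem : g ∈ (Submodule.span ℂ (Set.range <| UnitAddTorus.mFourier (d := Fin k))).topologicalClosure := by
    rw [UnitAddTorus.span_mFourier_closure_eq_top]; trivial
  have hcl : g ∈ closure ((Submodule.span ℂ (Set.range <| UnitAddTorus.mFourier (d := Fin k)) :
      Submodule ℂ C(UnitAddTorus (Fin k), ℂ)) : Set C(UnitAddTorus (Fin k), ℂ)) := hmem
  obtain ⟨p, hp, hpg⟩ := Metric.mem_closure_iff.1 hcl ε hε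
  obtain ⟨a, ha⟩ := (Finsupp.mem_span_range_iff_exists_finsupp).1 hp
  have hpx : ∀ x, p x = ∑ n ∈ a.support, a n * UnitAddTorus.mFourier n x := by
    intro x
    rw [← ha, Finsupp.sum, ContinuousMap.sum_apply]
    rfl
  have hdist : ∀ x, ‖(f x : ℂ) - p x‖ ≤ ε := by
    intro x
    have h1 := ContinuousMap.dist_apply_le_dist (f := g) (g := p) x
    rw [dist_eq_norm] at h1
    exact h1.trans hpg.le
  have hTP : TP fun t => (p (torusPt α t)).re := by
    have h1 : (fun t : ℝ => (p (torusPt α t)).re) =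
        fun t : ℝ => ∑ n ∈ a.support, (a n * cexp (I * (freq α n : ℂ) * t)).re := by
      funext t
      rw [hpx, Complex.re_sum]
      refine Finset.sum_congr rfl fun n _ => ?_
      rw [mFourier_torusPt]
    rw [h1]
    exact TP_sum _ _ fun n _ => TP_single _ _
  obtain ⟨S, c, hS⟩ := hTP
  refine ⟨S, c, fun t => ?_⟩
  rw [← hS t]
  have h2 : f (torusPt α t) - (p (torusPt α t)).re =
      ((f (torusPt α t) : ℂ) - p (torusPt α t)).re := by simp
  rw [h2]
  exact (Complex.abs_re_le_norm _).trans (hdist _)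

lemma APu_of_TP {f : ℝ → ℝ} (h : TP f) : APu f := by
  obtain ⟨S, c, hS⟩ := h
  intro ε hε
  exact ⟨S, c, fun t => by rw [hS t, sub_self, abs_zero]; exact hε.le⟩

lemma APu_const (a : ℝ) : APu fun _ => a := APu_of_TP (TP_const a)

lemma APu_add {f g : ℝ → ℝ} (hf : APu f) (hg : APu g) : APu fun t => f t + g t := by
  intro ε hε
  obtain ⟨S, c, hS⟩ := hf (ε / 2) (by positivity)
  obtain ⟨S', c', hS'⟩ := hg (ε / 2) (by positivity)
  obtain ⟨S'', c'', hS''⟩ := TP_add (f := tp S c) (g := tp S' c') ⟨S, c, fun _ => rfl⟩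
    ⟨S', c', fun _ => rfl⟩
  refine ⟨S'', c'', fun t => ?_⟩
  rw [← hS'' t]
  have h1 := hS t
  have h2 := hS' t
  rw [abs_le] at *
  constructor <;> linarith [h1.1, h1.2, h2.1, h2.2]

lemma APu_mul {f g : ℝ → ℝ} (hf : APu f) (hg : APu g) : APu fun t => f t * g t := by
  intro ε hε
  obtain ⟨B, hB, hfB⟩ := APu_bdd hf
  obtain ⟨S', c', hS'⟩ := hg (ε / (2 * B)) (by positivity)
  obtain ⟨B', hB', hgB⟩ := APu_bdd (APu_of_TP (f := tp S' c') ⟨S', c', fun _ => rfl⟩)
  obtain ⟨S, c, hS⟩ := hf (ε / (2 * B')) (by positivity)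
  obtain ⟨S'', c'', hS''⟩ := TP_mul (f := tp S c) (g := tp S' c') ⟨S, c, fun _ => rfl⟩
    ⟨S', c', fun _ => rfl⟩
  refine ⟨S'', c'', fun t => ?_⟩
  rw [← hS'' t]
  have h1 := hS t
  have h2 := hS' t
  calc |f t * g t - tp S c t * tp S' c' t| =
      |f t * (g t - tp S' c' t) + (f t - tp S c t) * tp S' c' t| := by congr 1; ring
    _ ≤ |f t| * |g t - tp S' c' t| + |f t - tp S c t| * |tp S' c' t| := by
      rw [← abs_mul, ← abs_mul]
      exact abs_add_le _ _
    _ ≤ B * (ε / (2 * B)) + ε / (2 * B') * B' := by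
      gcongr
      · exact hfB t
      · exact hgB t
    _ = ε := by field_simp; ring

lemma APu_prod {ι : Type*} (s : Finset ι) (f : ι → ℝ → ℝ) (h : ∀ i ∈ s, APu (f i)) :
    APu fun t => ∏ i ∈ s, f i t := by
  classical
  induction s using Finset.induction_on with
  | empty => simpa using APu_const 1
  | insert a s ha ih =>
    have h1 := APu_mul (h a (Finset.mem_insert_self _ _))
      (ih fun i hi => h i (Finset.mem_insert_of_mem hi))
    refine (funext fun t => ?_ : (fun t => ∏ i ∈ insert a s, f i t) = _) ▸ h1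
    rw [Finset.prod_insert ha]

lemma APu_trans {φ : ℝ → ℝ} (h : APu φ) (b : ℝ) : APu (fun t => φ (t - b)) := by
  intro ε hε
  obtain ⟨S, c, hS⟩ := h ε hε
  refine ⟨S, fun τ => c τ * cexp (-(I * τ * b)), fun t => ?_⟩
  rw [← tp_trans]
  exact hS _

/-- products of numbers in `[0, 1]` -/
lemma prod_diff {ι : Type*} (s : Finset ι) (x y : ι → ℝ) (hx0 : ∀ i, 0 ≤ x i) (hx1 : ∀ i, x i ≤ 1)
    (hy0 : ∀ i, 0 ≤ y i) (hy1 : ∀ i, y i ≤ 1) :
    |∏ i ∈ s, x i - ∏ i ∈ s, y i| ≤ ∑ i ∈ s, |x i - y i| := by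
  classical
  induction s using Finset.induction_on with
  | empty => simp
  | insert a s ha ih =>
    rw [Finset.prod_insert ha, Finset.prod_insert ha, Finset.sum_insert ha]
    have hpx0 : 0 ≤ ∏ i ∈ s, x i := Finset.prod_nonneg fun i _ => hx0 i
    have hpx1 : ∏ i ∈ s, x i ≤ 1 := Finset.prod_le_one (fun i _ => hx0 i) fun i _ => hx1 i
    calc |x a * ∏ i ∈ s, x i - y a * ∏ i ∈ s, y i| =
        |(x a - y a) * ∏ i ∈ s, x i + y a * (∏ i ∈ s, x i - ∏ i ∈ s, y i)| := by congr 1; ring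
      _ ≤ |x a - y a| * |∏ i ∈ s, x i| + |y a| * |∏ i ∈ s, x i - ∏ i ∈ s, y i| := by
        rw [← abs_mul, ← abs_mul]
        exact abs_add_le _ _
      _ ≤ |x a - y a| * 1 + 1 * ∑ i ∈ s, |x i - y i| := by
        rw [abs_of_nonneg hpx0, abs_of_nonneg (hy0 a)]
        gcongr
        exact hy1 a
      _ = _ := by ring

/-- mean values over long intervals -/
lemma APm_int {φ : ℝ → ℝ} {M : ℝ} (h : APm φ M) {κ ε : ℝ} (hκ : 0 < κ) (hε : 0 < ε) :
    ∃ T0 : ℝ, 1 ≤ T0 ∧ ∀ T : ℝ, T0 ≤ T → ∀ H : ℝ, κ * T ≤ H → H ≤ T →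
      |(∫ t in T..(T + H), φ t) - M * H| ≤ ε * H := by
  set η : ℝ := ε * κ / 9 with hη
  have hη0 : 0 < η := by positivity
  obtain ⟨S, c, hS0, hS, hM⟩ := h η hη0
  have hc := (APm_APu h).cont
  have h1 : ∀ᶠ X : ℝ in atTop, |(∫ t in (0 : ℝ)..X, φ t) - M * X| ≤ 3 * η * X := by
    have h2 := (Metric.tendsto_nhds.1 (tp_mean c hS0)) η hη0
    filter_upwards [h2, eventually_gt_atTop (0 : ℝ)] with X hX hX0
    rw [Real.dist_eq] at hX
    have h3 : |(∫ t in (0 : ℝ)..X, tp S c t) - (c 0).re * X| ≤ η * X := by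
      have : (∫ t in (0 : ℝ)..X, tp S c t) - (c 0).re * X =
          ((∫ t in (0 : ℝ)..X, tp S c t) / X - (c 0).re) * X := by field_simp
      rw [this, abs_mul, abs_of_pos hX0]
      gcongr
    have h4 : |(∫ t in (0 : ℝ)..X, φ t) - ∫ t in (0 : ℝ)..X, tp S c t| ≤ η * X := by
      rw [← intervalIntegral.integral_sub (hc.intervalIntegrable _ _)
        ((tp_cont S c).intervalIntegrable _ _)]
      have h3 := intervalIntegral.norm_integral_le_of_norm_le_const (a := 0) (b := X)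
        (f := fun t => φ t - tp S c t) (C := η) (fun t _ => hS t)
      rwa [sub_zero, abs_of_pos hX0, Real.norm_eq_abs] at h3
    have h5 : |(c 0).re * X - M * X| ≤ η * X := by
      rw [← sub_mul, abs_mul, abs_of_pos hX0]
      gcongr
    rw [abs_le] at *
    constructor <;> linarith [h3.1, h3.2, h4.1, h4.2, h5.1, h5.2]
  obtain ⟨T1, hT1⟩ := h1.exists_forall_of_atTop
  refine ⟨max T1 1, le_max_right _ _, fun T hT H hH1 hH2 => ?_⟩
  have hT0 : 1 ≤ T := (le_max_right _ _).trans hT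
  have hH0 : 0 ≤ H := le_trans (by positivity) hH1
  have a1 := hT1 T ((le_max_left _ _).trans hT)
  have a2 := hT1 (T + H) (((le_max_left _ _).trans hT).trans (by linarith))
  have e1 : ∫ t in T..(T + H), φ t = (∫ t in (0 : ℝ)..(T + H), φ t) - ∫ t in (0 : ℝ)..T, φ t := by
    rw [intervalIntegral.integral_interval_sub_left (hc.intervalIntegrable _ _)
      (hc.intervalIntegrable _ _)]
  rw [e1]
  have h6 : 3 * η * (T + H) + 3 * η * T ≤ ε * H := by
    have : 9 * η * T ≤ ε * H := by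
      calc 9 * η * T = ε * (κ * T) := by rw [hη]; ring
        _ ≤ ε * H := by gcongr
    nlinarith
  rw [abs_le] at *
  constructor <;> linarith [a1.1, a1.2, a2.1, a2.2]

/-- the product weight -/
noncomputable def PW {n : ℕ} (G : Fin n → ℝ → ℝ) (b : Fin n → ℝ) (t : ℝ) : ℝ := ∏ i, G i (t - b i)

lemma PW_nonneg {n : ℕ} {G : Fin n → ℝ → ℝ} (h0 : ∀ i t, 0 ≤ G i t) (b : Fin n → ℝ) (t : ℝ) :
    0 ≤ PW G b t := Finset.prod_nonneg fun i _ => h0 i _

lemma PW_le {n : ℕ} {G : Fin n → ℝ → ℝ} (h0 : ∀ i t, 0 ≤ G i t) (h1 : ∀ i t, G i t ≤ 1)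
    (b : Fin n → ℝ) (t : ℝ) : PW G b t ≤ 1 := Finset.prod_le_one (fun i _ => h0 i _) fun i _ => h1 i _

lemma PW_APu {n : ℕ} {G : Fin n → ℝ → ℝ} (hG : ∀ i, APu (G i)) (b : Fin n → ℝ) : APu (PW G b) := by
  unfold PW
  exact APu_prod _ _ fun i _ => APu_trans (hG i) _

lemma p_bd : |2 - cc 1| ≤ 2 := by
  have h1 := cc_one_le
  have h2 : 0 ≤ cc 1 := by
    have hc := H228SI.constS 1 one_pos le_rfl
    have hC := H793SI.convS (Real.sqrt 2 * 1) (by positivity) (by rw [mul_one])
    rw [← hc]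
    unfold H295SI.cR
    have : 0 ≤ ∫ α in (0 : ℝ)..1, α * H295SI.RS (Real.sqrt 2 * 1) α :=
      intervalIntegral.integral_nonneg (by norm_num) fun u hu => mul_nonneg hu.1 (hC.nonneg u)
    have := hC.nonneg 0
    positivity
  rw [abs_le]
  constructor <;> linarith

/-- **truncated counts in windows, with products of translates of almost periodic weights,
uniformly in the translates** -/
theorem fam_core {κ ε : ℝ} (hκ : 0 < κ) (hε : 0 < ε) :
    ∃ K0 : ℝ, 1 ≤ K0 ∧ ∀ (n : ℕ) (G : Fin n → ℝ → ℝ), (∀ i, APu (G i)) → (∀ i t, 0 ≤ G i t) →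
      (∀ i t, G i t ≤ 1) →
      ∃ s0 T0 : ℝ, 0 < s0 ∧ 10 ≤ T0 ∧ ∀ T : ℝ, T0 ≤ T → ∀ H : ℝ, κ * T ≤ H → H ≤ T →
        ∀ (b : Fin n → ℝ) (s : ℝ), K0 ≤ s * Real.log T → s ≤ s0 →
        (2 - cc 1) * (∫ t in T..(T + H), PW G b t) * (s * Real.log T / (2 * Real.pi)) -
          ε * (s * Real.log T / (2 * Real.pi)) * H ≤
          ∫ t in T..(T + H), PW G b t * min (ns t s) (s * Real.log T / (2 * Real.pi)) := by
  classical
  obtain ⟨K0, hK0, hW⟩ := win_core hκ (ε := ε / 4) (by positivity)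
  refine ⟨K0, hK0, fun n G hG h0 h1 => ?_⟩
  -- each vector of translates
  have hx : ∀ b : Fin n → ℝ, ∃ x : ℝ, 10 ≤ x ∧ ∀ T : ℝ, x ≤ T → ∀ H : ℝ, κ * T ≤ H → H ≤ T →
      ∀ s : ℝ, K0 ≤ s * Real.log T → s ≤ 1 / x →
        (2 - cc 1) * (∫ t in T..(T + H), PW G b t) * (s * Real.log T / (2 * Real.pi)) -
          ε / 2 * (s * Real.log T / (2 * Real.pi)) * H ≤
          ∫ t in T..(T + H), PW G b t * min (ns t s) (s * Real.log T / (2 * Real.pi)) := by
    intro b
    obtain ⟨M, hM⟩ := APu_mean (PW_APu hG b)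
    obtain ⟨s0, T0, hs0, hT0, hw⟩ := hW _ M hM (PW_nonneg h0 b) (PW_le h0 h1 b)
    obtain ⟨T1, hT1, hi⟩ := APm_int hM hκ (ε := ε / 8) (by positivity)
    refine ⟨max (max T0 T1) (1 / s0), (hT0.trans (le_max_left _ _)).trans (le_max_left _ _),
      fun T hT H hH1 hH2 s hs1 hs2 => ?_⟩
    have hTT0 : T0 ≤ T := ((le_max_left _ _).trans (le_max_left _ _)).trans hT
    have hTT1 : T1 ≤ T := ((le_max_right _ _).trans (le_max_left _ _)).trans hT
    have hss : s ≤ s0 := by
      refine hs2.trans ?_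
      rw [div_le_iff₀ (by positivity)]
      have : 1 / s0 ≤ max (max T0 T1) (1 / s0) := le_max_right _ _
      calc 1 = s0 * (1 / s0) := by field_simp
        _ ≤ s0 * max (max T0 T1) (1 / s0) := by gcongr
    have a1 := hw T hTT0 H hH1 hH2 0 s hs1 hss
    simp only [sub_zero] at a1
    refine le_trans ?_ a1
    have a2 := hi T hTT1 H hH1 hH2
    set l := s * Real.log T / (2 * Real.pi) with hl
    have hpi := Real.pi_pos
    have hl0 : 0 ≤ l := by
      rw [hl]
      have : 0 ≤ s * Real.log T := by linarith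
      positivity
    have hH0 : 0 ≤ H := le_trans (by
      have : 0 ≤ T := by linarith
      positivity) hH1
    have a3 : |(2 - cc 1) * ((∫ t in T..(T + H), PW G b t) - M * H)| ≤ 2 * (ε / 8 * H) := by
      rw [abs_mul]
      exact mul_le_mul p_bd a2 (abs_nonneg _) (by norm_num)
    have a4 := (abs_le.1 a3).2
    have a5 : (2 - cc 1) * (∫ t in T..(T + H), PW G b t) ≤ ((2 - cc 1) * M + ε / 4) * H := by linarith
    calc (2 - cc 1) * (∫ t in T..(T + H), PW G b t) * l - ε / 2 * l * H ≤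
        ((2 - cc 1) * M + ε / 4) * H * l - ε / 2 * l * H := by gcongr
      _ = _ := by ring
  choose x hx10 hx using hx
  -- the net
  have hnet : ∀ i, ∃ B : Finset ℝ, ∀ b : ℝ, ∃ b' ∈ B, ∀ t, |G i (t - b) - G i (t - b')| ≤
      ε / (8 * (n + 1)) := fun i => net (hG i) (by positivity)
  choose B hB using hnet
  set R : Finset (Fin n → ℝ) := Fintype.piFinset B with hR
  set X : ℝ := 10 + ∑ b ∈ R, x b with hX
  have hxX : ∀ b ∈ R, x b ≤ X := by
    intro b hb
    have := Finset.single_le_sum (f := x) (fun i _ => by linarith [hx10 i]) hb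
    rw [hX]; linarith
  have hX10 : 10 ≤ X := by
    rw [hX]
    have : 0 ≤ ∑ b ∈ R, x b := Finset.sum_nonneg fun i _ => by linarith [hx10 i]
    linarith
  refine ⟨1 / X, X, by positivity, hX10, fun T hT H hH1 hH2 b s hs1 hs2 => ?_⟩
  choose! g hg1 hg2 using fun i => hB i (b i)
  set b' : Fin n → ℝ := fun i => g i with hb'
  have hb'R : b' ∈ R := by
    rw [hR, Fintype.mem_piFinset]
    intro i
    exact hg1 i
  have a1 := hx b' T ((hxX b' hb'R).trans hT) H hH1 hH2 s hs1 (hs2.trans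
    (one_div_le_one_div_of_le (by linarith [hx10 b']) (hxX b' hb'R)))
  have hT10 : 10 ≤ T := hX10.trans hT
  have hH0 : 0 ≤ H := le_trans (by
      have : 0 ≤ T := by linarith
      positivity) hH1
  set l := s * Real.log T / (2 * Real.pi) with hl
  have hpi := Real.pi_pos
  have hl0 : 0 ≤ l := by
    rw [hl]
    have : 0 ≤ s * Real.log T := by linarith
    positivity
  have hdiff : ∀ t, |PW G b t - PW G b' t| ≤ ε / 8 := by
    intro t
    unfold PW
    refine (prod_diff _ _ _ (fun i => h0 i _) (fun i => h1 i _) (fun i => h0 i _)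
      (fun i => h1 i _)).trans ?_
    refine (Finset.sum_le_sum fun i _ => hg2 i t).trans ?_
    rw [Finset.sum_const, Finset.card_univ, Fintype.card_fin, nsmul_eq_mul]
    rw [mul_div_assoc', div_le_div_iff₀ (by positivity) (by norm_num)]
    nlinarith
  have hc := (PW_APu hG b).cont
  have hc' := (PW_APu hG b').cont
  -- integrability
  have hnsi : ∀ (W : ℝ → ℝ), Continuous W → (∀ t, 0 ≤ W t) → (∀ t, W t ≤ 1) →
      IntervalIntegrable (fun t => W t * min (ns t s) l) volume T (T + H) := by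
    intro W hWc hW0 hW1
    have hm : Measurable fun t => ∑ z ∈ SZ T (T + H + s), iv s z.im t :=
      Finset.measurable_fun_sum _ fun z _ => iv_meas _ _
    have h2 : IntervalIntegrable (fun t => W t * min (∑ z ∈ SZ T (T + H + s), iv s z.im t) l)
        volume T (T + H) := by
      refine bdd_ii (hWc.measurable.mul (hm.min measurable_const)) (C := l) (fun t => ?_) _ _
      have h3 : 0 ≤ ∑ z ∈ SZ T (T + H + s), iv s z.im t :=
        Finset.sum_nonneg fun z _ => iv_nonneg _ _ _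
      show |W t * min (∑ z ∈ SZ T (T + H + s), iv s z.im t) l| ≤ l
      rw [abs_of_nonneg (mul_nonneg (hW0 _) (le_min h3 hl0))]
      calc W t * min (∑ z ∈ SZ T (T + H + s), iv s z.im t) l ≤ 1 * l :=
        mul_le_mul (hW1 _) (min_le_right _ _) (le_min h3 hl0) zero_le_one
        _ = l := one_mul _
    refine h2.congr ?_
    intro t ht
    rw [Set.uIoc_of_le (by linarith)] at ht
    simp only
    rw [← ns_eq (by linarith) ht.1.le (by linarith [ht.2])]
  have i1 := hnsi _ hc (PW_nonneg h0 b) (PW_le h0 h1 b)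
  have i2 := hnsi _ hc' (PW_nonneg h0 b') (PW_le h0 h1 b')
  have a2 : |(∫ t in T..(T + H), PW G b t) - ∫ t in T..(T + H), PW G b' t| ≤ ε / 8 * H := by
    rw [← intervalIntegral.integral_sub (hc.intervalIntegrable _ _) (hc'.intervalIntegrable _ _)]
    have h3 := intervalIntegral.norm_integral_le_of_norm_le_const (a := T) (b := T + H)
      (f := fun t => PW G b t - PW G b' t) (C := ε / 8) (fun t _ => hdiff t)
    rwa [add_sub_cancel_left, abs_of_nonneg hH0, Real.norm_eq_abs] at h3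
  have a3 : |(∫ t in T..(T + H), PW G b t * min (ns t s) l) -
      ∫ t in T..(T + H), PW G b' t * min (ns t s) l| ≤ ε / 8 * l * H := by
    rw [← intervalIntegral.integral_sub i1 i2]
    have h3 := intervalIntegral.norm_integral_le_of_norm_le_const (a := T) (b := T + H)
      (f := fun t => PW G b t * min (ns t s) l - PW G b' t * min (ns t s) l) (C := ε / 8 * l)
      (fun t _ => by
        have hm0 : 0 ≤ min (ns t s) l := le_min (ns_nonneg _ _) hl0
        rw [← sub_mul, norm_mul, Real.norm_eq_abs, Real.norm_eq_abs, abs_of_nonneg hm0]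
        exact mul_le_mul (hdiff t) (min_le_right _ _) hm0 (by positivity))
    rwa [add_sub_cancel_left, abs_of_nonneg hH0, Real.norm_eq_abs] at h3
  have a4 : |(2 - cc 1) * ((∫ t in T..(T + H), PW G b t) - ∫ t in T..(T + H), PW G b' t)| ≤
      2 * (ε / 8 * H) := by
    rw [abs_mul]
    exact mul_le_mul p_bd a2 (abs_nonneg _) (by norm_num)
  have a5 := (abs_le.1 a4).2
  have a6 := (abs_le.1 a3).1
  have a7 : (2 - cc 1) * (∫ t in T..(T + H), PW G b t) ≤
      (2 - cc 1) * (∫ t in T..(T + H), PW G b' t) + ε / 4 * H := by linarith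
  have a8 : (2 - cc 1) * (∫ t in T..(T + H), PW G b t) * l ≤
      ((2 - cc 1) * (∫ t in T..(T + H), PW G b' t) + ε / 4 * H) * l := by gcongr
  have a9 : 0 ≤ ε * l * H := by positivity
  nlinarith

end Pool.Agent.H493.WB
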