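import Pool.Agent.H493.BS.Layer

/-! Translates of almost periodic functions: compactness, and the weighted counting theorem
uniformly in the translate. -/

set_option autoImplicit false

open Complex Filter Topology Set MeasureTheory
open scoped BigOperators ComplexConjugate

namespace Pool.Agent.H493.WB

open H370 TH803TW H295SI Pool.Agent.H493.BS

/-- the translate of a trigonometric polynomial -/
lemma tp_trans (S : Finset ℝ) (c : ℝ → ℂ) (b t : ℝ) :
    tp S c (t - b) = tp S (fun τ => c τ * cexp (-(I * τ * b))) t := by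
  unfold tp
  congr 1
  refine Finset.sum_congr rfl fun τ _ => ?_
  simp only
  rw [mul_assoc (c τ), ← Complex.exp_add]
  congr 2
  push_cast
  ring

/-- the translates of a trigonometric polynomial are totally bounded -/
lemma net_tp (S : Finset ℝ) (c : ℝ → ℂ) {ε : ℝ} (hε : 0 < ε) :
    ∃ B : Finset ℝ, ∀ b : ℝ, ∃ b' ∈ B, ∀ t, |tp S c (t - b) - tp S c (t - b')| ≤ ε := by
  classical
  set v : ℝ → (S → ℂ) := fun b τ => cexp (-(I * (τ : ℝ) * b)) with hv
  have hn : ∀ (τ b : ℝ), ‖cexp (-(I * τ * b))‖ = 1 := by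
    intro τ b
    rw [show -(I * (τ : ℂ) * (b : ℂ)) = ((-(τ * b) : ℝ) : ℂ) * I by push_cast; ring]
    exact Complex.norm_exp_ofReal_mul_I _
  have hbd : Bornology.IsBounded (Set.range v) := by
    refine (Metric.isBounded_iff_subset_closedBall (0 : S → ℂ)).2 ⟨1, ?_⟩
    rintro _ ⟨b, rfl⟩
    rw [mem_closedBall_zero_iff]
    refine (pi_norm_le_iff_of_nonneg zero_le_one).2 fun τ => ?_
    rw [hv]
    simp only
    rw [hn]
  have htb : TotallyBounded (Set.range v) :=
    hbd.isCompact_closure.totallyBounded.subset subset_closure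
  set A : ℝ := ∑ τ ∈ S, ‖c τ‖ with hA
  have hA0 : 0 ≤ A := Finset.sum_nonneg fun _ _ => norm_nonneg _
  obtain ⟨Y, hY, hYf, hcov⟩ := Metric.finite_approx_of_totallyBounded htb (ε / (A + 1)) (by positivity)
  choose! g hg using fun y (hy : y ∈ Y) => hY hy
  refine ⟨(hYf.toFinset).image g, fun b => ?_⟩
  have h1 := hcov ⟨b, rfl⟩
  rw [Set.mem_iUnion₂] at h1
  obtain ⟨y, hy, hby⟩ := h1
  refine ⟨g y, Finset.mem_image.2 ⟨y, hYf.mem_toFinset.2 hy, rfl⟩, fun t => ?_⟩
  have hgy : v (g y) = y := hg y hy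
  rw [Metric.mem_ball, ← hgy, dist_eq_norm] at hby
  rw [tp_trans, tp_trans]
  unfold tp
  rw [← Complex.sub_re, ← Finset.sum_sub_distrib]
  refine (Complex.abs_re_le_norm _).trans ((norm_sum_le _ _).trans ?_)
  have h2 : ∀ τ ∈ S, ‖c τ * cexp (-(I * τ * b)) * cexp (I * τ * t) -
      c τ * cexp (-(I * τ * (g y : ℝ))) * cexp (I * τ * t)‖ ≤ ‖c τ‖ * (ε / (A + 1)) := by
    intro τ hτ
    rw [show c τ * cexp (-(I * τ * b)) * cexp (I * τ * t) -
      c τ * cexp (-(I * τ * (g y : ℝ))) * cexp (I * τ * t) =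
      c τ * (cexp (-(I * τ * b)) - cexp (-(I * τ * (g y : ℝ)))) * cexp (I * τ * t) by ring,
      norm_mul, norm_mul, tw_exp_norm, mul_one]
    apply mul_le_mul_of_nonneg_left _ (norm_nonneg _)
    have h3 := (norm_le_pi_norm (v b - v (g y)) ⟨τ, hτ⟩).trans hby.le
    simpa [hv] using h3
  refine (Finset.sum_le_sum h2).trans ?_
  rw [← Finset.sum_mul, ← hA, mul_div_assoc']
  rw [div_le_iff₀ (by positivity)]
  nlinarith

lemma APm_trans {φ : ℝ → ℝ} {M : ℝ} (h : APm φ M) (b : ℝ) : APm (fun t => φ (t - b)) M := by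
  intro ε hε
  obtain ⟨S, c, h0, h1, h2⟩ := h ε hε
  refine ⟨S, fun τ => c τ * cexp (-(I * τ * b)), h0, fun t => ?_, ?_⟩
  · rw [← tp_trans]
    exact h1 _
  · simpa using h2

/-- the translates of an almost periodic function are totally bounded -/
lemma net {φ : ℝ → ℝ} (h : APu φ) {ε : ℝ} (hε : 0 < ε) :
    ∃ B : Finset ℝ, ∀ b : ℝ, ∃ b' ∈ B, ∀ t, |φ (t - b) - φ (t - b')| ≤ ε := by
  obtain ⟨S, c, hS⟩ := h (ε / 3) (by positivity)
  obtain ⟨B, hB⟩ := net_tp S c (ε := ε / 3) (by positivity)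
  refine ⟨B, fun b => ?_⟩
  obtain ⟨b', hb', h1⟩ := hB b
  refine ⟨b', hb', fun t => ?_⟩
  have h2 := hS (t - b)
  have h3 := hS (t - b')
  have h4 := h1 t
  rw [abs_le] at *
  constructor <;> linarith [h2.1, h2.2, h3.1, h3.2, h4.1, h4.2]

/-- almost periodic functions have mean values -/
lemma APu_mean {φ : ℝ → ℝ} (h : APu φ) : ∃ M, APm φ M := by
  classical
  -- the means of the polynomials
  have h0 : ∀ ε : ℝ, 0 < ε → ∃ (S : Finset ℝ) (c : ℝ → ℂ), (0 : ℝ) ∈ S ∧ ∀ t, |φ t - tp S c t| ≤ ε := by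
    intro ε hε
    obtain ⟨S, c, hS⟩ := h ε hε
    set c' : ℝ → ℂ := fun τ => if τ ∈ S then c τ else 0 with hc'
    have htp : tp (insert 0 S) c' = tp S c := by
      funext t
      unfold tp
      congr 1
      rw [← Finset.sum_subset (Finset.subset_insert (0 : ℝ) S)]
      · refine Finset.sum_congr rfl fun τ hτ => ?_
        rw [hc']
        simp only [if_pos hτ]
      · intro τ _ hτ
        rw [hc']
        simp only [if_neg hτ, zero_mul]
    exact ⟨insert 0 S, c', Finset.mem_insert_self _ _, fun t => by rw [htp]; exact hS t⟩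
  have hcont := h.cont
  have hdiff : ∀ {S : Finset ℝ} {c : ℝ → ℂ} {ε X : ℝ}, 0 < X → (∀ t, |φ t - tp S c t| ≤ ε) →
      |(∫ t in (0 : ℝ)..X, φ t) / X - (∫ t in (0 : ℝ)..X, tp S c t) / X| ≤ ε := by
    intro S c ε X hX hS
    rw [← sub_div, abs_div, abs_of_pos hX, div_le_iff₀ hX,
      ← intervalIntegral.integral_sub (hcont.intervalIntegrable _ _)
        ((tp_cont S c).intervalIntegrable _ _)]
    have h3 := intervalIntegral.norm_integral_le_of_norm_le_const (a := 0) (b := X)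
      (f := fun t => φ t - tp S c t) (C := ε) (fun t _ => hS t)
    rwa [sub_zero, abs_of_pos hX, Real.norm_eq_abs] at h3
  have hcau : Cauchy (map (fun X : ℝ => (∫ t in (0 : ℝ)..X, φ t) / X) atTop) := by
    rw [Metric.cauchy_iff]
    refine ⟨inferInstance, fun ε hε => ?_⟩
    obtain ⟨S, c, hS0, hS⟩ := h0 (ε / 8) (by positivity)
    have h1 := tp_mean c hS0
    have h2 : ∀ᶠ X : ℝ in atTop, |(∫ t in (0 : ℝ)..X, tp S c t) / X - (c 0).re| < ε / 8 := by
      have := (Metric.tendsto_nhds.1 h1) (ε / 8) (by positivity)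
      filter_upwards [this] with X hX
      rwa [Real.dist_eq] at hX
    refine ⟨{y | |y - (c 0).re| < ε / 3}, ?_, fun x hx y hy => ?_⟩
    · rw [mem_map]
      filter_upwards [h2, eventually_gt_atTop (0 : ℝ)] with X hX hX0
      have h3 := hdiff hX0 hS
      simp only [Set.mem_preimage, Set.mem_ofPred_eq]
      rw [abs_lt] at *
      rw [abs_le] at h3
      constructor <;> linarith [h3.1, h3.2, hX.1, hX.2]
    · rw [Real.dist_eq]
      simp only [Set.mem_ofPred_eq] at hx hy
      rw [abs_lt] at *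
      constructor <;> linarith [hx.1, hx.2, hy.1, hy.2]
  obtain ⟨M, hM⟩ := cauchy_map_iff_exists_tendsto.1 hcau
  exact ⟨M, APm_of_mean h hM⟩

open Classical in
/-- **almost periodic weights, uniformly in the translate** -/
theorem weights_unif {G : ℝ → ℝ} {M : ℝ} (hG : APm G M) (h0 : ∀ t, 0 ≤ G t) {κ ε : ℝ}
    (hκ : 0 < κ) (hε : 0 < ε) :
    ∃ T0 : ℝ, 10 ≤ T0 ∧ ∀ T : ℝ, T0 ≤ T → ∀ H : ℝ, κ * T ≤ H → H ≤ T → ∀ b : ℝ,
      ((2 - cc 1) * M - ε) * NN riemannZeta T (T + H) ≤
        W1 riemannZeta T (T + H) (fun t => G (t - b)) := by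
  obtain ⟨B, hB⟩ := net (APm_APu hG) (ε := ε / 2) (by positivity)
  have h1 : ∀ b : ℝ, ∃ T0 : ℝ, 10 ≤ T0 ∧ ∀ T : ℝ, T0 ≤ T → ∀ H : ℝ, κ * T ≤ H → H ≤ T →
      ((2 - cc 1) * M - ε / 2) * NN riemannZeta T (T + H) ≤
        W1 riemannZeta T (T + H) (fun t => G (t - b)) := by
    intro b
    obtain ⟨T0, hT0, h⟩ := weights (APm_trans hG b) (fun t => h0 _) hκ (ε := ε / 2) (by positivity)
    exact ⟨T0, hT0, fun T hT H hH1 hH2 => (h T hT H hH1 hH2).1⟩
  choose T0 hT0 h using h1
  refine ⟨max 10 (∑ b ∈ B, T0 b), le_max_left _ _, fun T hT H hH1 hH2 b => ?_⟩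
  have hT10 : 10 ≤ T := (le_max_left _ _).trans hT
  obtain ⟨b', hb', hbb⟩ := hB b
  have hT0b : T0 b' ≤ T := by
    refine le_trans ?_ ((le_max_right _ _).trans hT)
    exact Finset.single_le_sum (f := T0) (fun i _ => by linarith [hT0 i]) hb'
  have h2 := h b' T hT0b H hH1 hH2
  have h3 : W1 riemannZeta T (T + H) (fun t => G (t - b')) ≤
      W1 riemannZeta T (T + H) (fun t => G (t - b)) + ε / 2 * NN riemannZeta T (T + H) := by
    have h4 : W1 riemannZeta T (T + H) (fun t => G (t - b')) -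
        W1 riemannZeta T (T + H) (fun t => G (t - b)) ≤
        ε / 2 * ((Zf riemannZeta T (T + H)).card : ℝ) := by
      unfold W1
      rw [← Finset.sum_sub_distrib]
      have h5 : ∀ s ∈ (Zf riemannZeta T (T + H)).filter
          (fun s => s.re = 1 / 2 ∧ mult riemannZeta s = 1), G (s.im - b') - G (s.im - b) ≤ ε / 2 := by
        intro s _
        have := hbb s.im
        rw [abs_sub_comm] at this
        exact (le_abs_self _).trans this
      refine (Finset.sum_le_sum h5).trans ?_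
      rw [Finset.sum_const, nsmul_eq_mul, mul_comm]
      have : (((Zf riemannZeta T (T + H)).filter
          (fun s => s.re = 1 / 2 ∧ mult riemannZeta s = 1)).card : ℝ) ≤
          (Zf riemannZeta T (T + H)).card := by exact_mod_cast Finset.card_filter_le _ _
      gcongr
    have h6 := card_le_NN good_zeta (A := T) (B := T + H) (by linarith)
    have h7 : ε / 2 * ((Zf riemannZeta T (T + H)).card : ℝ) ≤ ε / 2 * NN riemannZeta T (T + H) := by
      gcongr
    linarith
  linarith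

end Pool.Agent.H493.WB
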