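import Pool.Agent.H493.WB.Thr

/-! Pairs of simple zeros at a given distance. -/

set_option autoImplicit false

open Complex Filter Topology Set MeasureTheory
open scoped BigOperators ComplexConjugate

namespace Pool.Agent.H493.WB

open H370 TH803TW H295SI Pool.Agent.H493.BS

lemma iv_split {w w' : ℝ} (hw : 0 ≤ w) (hw' : 0 ≤ w') (u t : ℝ) :
    iv (w + w') u t = iv w u t + iv w' u (t + w) := by
  rw [iv_eq, iv_eq, iv_eq]
  by_cases h1 : t < u
  · by_cases h2 : u ≤ t + w
    · rw [if_pos ⟨h1, by linarith⟩, if_pos ⟨h1, h2⟩, if_neg (by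
        rintro ⟨h3, -⟩; linarith), add_zero]
    · push Not at h2
      by_cases h3 : u ≤ t + (w + w')
      · rw [if_pos ⟨h1, h3⟩, if_neg (by rintro ⟨-, h4⟩; linarith), if_pos ⟨h2, by linarith⟩, zero_add]
      · push Not at h3
        rw [if_neg (by rintro ⟨-, h4⟩; linarith), if_neg (by rintro ⟨-, h4⟩; linarith),
          if_neg (by rintro ⟨-, h4⟩; linarith), zero_add]
  · rw [if_neg (by rintro ⟨h4, -⟩; exact h1 h4), if_neg (by rintro ⟨h4, -⟩; exact h1 h4),
      if_neg (by rintro ⟨h4, -⟩; linarith), zero_add]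

lemma iv_sum {w : ℝ} (hw : 0 ≤ w) (J : ℕ) (u t : ℝ) :
    ∑ i ∈ Finset.range J, iv w u (t + i * w) = iv (J * w) u t := by
  induction J with
  | zero =>
    simp only [Finset.range_zero, Finset.sum_empty, Nat.cast_zero, zero_mul]
    rw [iv_eq, if_neg]
    rintro ⟨h1, h2⟩
    linarith
  | succ J ih =>
    rw [Finset.sum_range_succ, ih]
    push_cast
    rw [add_mul, one_mul, iv_split (by positivity) hw]

lemma int_iv_le {s u V A B : ℝ} (hs : 0 ≤ s) (hAB : A ≤ B) :
    ∫ t in A..B, iv s u (t + V) ≤ s := by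
  rw [intervalIntegral.integral_comp_add_right (fun t => iv s u t) V,
    intervalIntegral.integral_of_le (by linarith)]
  unfold iv
  rw [setIntegral_indicator measurableSet_Ico, setIntegral_const, smul_eq_mul, mul_one]
  unfold Measure.real
  have h1 : volume (Set.Ioc (A + V) (B + V) ∩ Set.Ico (u - s) u) ≤ volume (Set.Ico (u - s) u) :=
    measure_mono Set.inter_subset_right
  have h2 : volume (Set.Ico (u - s) u) = ENNReal.ofReal s := by
    rw [Real.volume_Ico]; congr 1; ring
  rw [h2] at h1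
  calc (volume (Set.Ioc (A + V) (B + V) ∩ Set.Ico (u - s) u)).toReal ≤ (ENNReal.ofReal s).toReal :=
      ENNReal.toReal_mono ENNReal.ofReal_ne_top h1
    _ = s := ENNReal.toReal_ofReal hs

lemma YY_mul_le {ℓ : ℝ} (hℓ : 0 < ℓ) (s t : ℝ) : ℓ * YY ℓ s t ≤ ns t s := by
  have : YY ℓ s t ≤ ns t s / ℓ := min_le_left _ _
  calc ℓ * YY ℓ s t ≤ ℓ * (ns t s / ℓ) := by gcongr
    _ = ns t s := by field_simp

open Classical in
/-- the weighted number of pairs of simple zeros at distance about `h` -/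
noncomputable def PS (A B B' h δ : ℝ) (f g : ℝ → ℝ) : ℝ :=
  ∑ z ∈ SZ A B, ∑ z' ∈ (SZ A B').filter fun z' => |z'.im - z.im - h| ≤ δ, f z.im * g z'.im

/-- the positive part of `f - e` -/
noncomputable def pos (f : ℝ → ℝ) (e t : ℝ) : ℝ := max (f t - e) 0

lemma pos_APu {f : ℝ → ℝ} (hf : APu f) (e : ℝ) : APu (pos f e) :=
  APu_comp (f := fun x => max (x - e) 0) hf (by fun_prop)

lemma pos_nonneg (f : ℝ → ℝ) (e t : ℝ) : 0 ≤ pos f e t := le_max_right _ _

lemma pos_le {f : ℝ → ℝ} (hf : ∀ t, f t ≤ 1) {e : ℝ} (he : 0 ≤ e) (t : ℝ) : pos f e t ≤ 1 :=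
  max_le (by linarith [hf t]) zero_le_one

lemma pos_le_of {f : ℝ → ℝ} (hf : ∀ t, 0 ≤ f t) {e t u : ℝ} (h : |f t - f u| ≤ e) :
    pos f e t ≤ f u :=
  max_le (by linarith [(abs_le.1 h).2]) (hf u)

lemma pos_mul {x y e : ℝ} (hx0 : 0 ≤ x) (hx1 : x ≤ 1) (hy0 : 0 ≤ y) (hy1 : y ≤ 1) (he : 0 ≤ e) :
    x * y - 2 * e ≤ max (x - e) 0 * max (y - e) 0 := by
  rcases le_total x e with h | h
  · have h1 : 0 ≤ max (x - e) 0 * max (y - e) 0 :=
      mul_nonneg (le_max_right _ _) (le_max_right _ _)
    have : x * y ≤ e * 1 := mul_le_mul h hy1 hy0 he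
    linarith
  · rcases le_total y e with h' | h'
    · have h1 : 0 ≤ max (x - e) 0 * max (y - e) 0 :=
        mul_nonneg (le_max_right _ _) (le_max_right _ _)
      have : x * y ≤ 1 * e := mul_le_mul hx1 h' hy0 zero_le_one
      linarith
    · rw [max_eq_left (by linarith), max_eq_left (by linarith)]
      nlinarith

/-- **pairs of simple zeros at any distance, with almost periodic weights** -/
theorem pairs {κ K ε : ℝ} (hκ : 0 < κ) (hK : 0 ≤ K) (hε : 0 < ε) :
    ∃ a0 : ℝ, 1 ≤ a0 ∧ ∀ f g : ℝ → ℝ, APu f → APu g → (∀ t, 0 ≤ f t) → (∀ t, f t ≤ 1) →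
      (∀ t, 0 ≤ g t) → (∀ t, g t ≤ 1) →
      ∃ c0 T0 : ℝ, 0 < c0 ∧ 10 ≤ T0 ∧ ∀ T : ℝ, T0 ≤ T → ∀ H : ℝ, κ * T ≤ H → H ≤ T →
        ∀ h a : ℝ, 0 ≤ h → h ≤ K * T → a0 ≤ a → a ≤ c0 * Real.log T →
        2 * a * (Real.log T / (2 * Real.pi)) *
          ((3 - 2 * cc 1) * (∫ t in T..(T + H), f t * g (t + h)) - ε * H) ≤
        PS T (T + H) ((K + 3) * T) h (2 * Real.pi * a / Real.log T) f g := by
  classical
  have hpi := Real.pi_pos
  obtain ⟨ℓ, hℓ1, hcore⟩ := bes_core (κ := κ / 2) (K := K + 1) (ε := ε / 8) (by positivity)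
    (by linarith) (by positivity)
  have hℓ0 : 0 < ℓ := by linarith
  refine ⟨24 * ℓ / ε + 2 * ℓ + 1, by
    have : 0 ≤ 24 * ℓ / ε := by positivity
    linarith, fun f g hf hg hf0 hf1 hg0 hg1 => ?_⟩
  obtain ⟨δ1, hδ1, hmf⟩ := modulus hf (η := ε / 32) (by positivity)
  obtain ⟨δ2, hδ2, hmg⟩ := modulus hg (η := ε / 32) (by positivity)
  set e : ℝ := ε / 32 with he
  have he0 : 0 < e := by positivity
  set φ : Fin 2 → ℝ → ℝ := ![pos f e, pos g e] with hφ
  have hφu : ∀ i, APu (φ i) := by
    intro i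
    fin_cases i
    · exact pos_APu hf e
    · exact pos_APu hg e
  have hφ0 : ∀ i t, 0 ≤ φ i t := by
    intro i t
    fin_cases i
    · exact pos_nonneg _ _ _
    · exact pos_nonneg _ _ _
  have hφ1 : ∀ i t, φ i t ≤ 1 := by
    intro i t
    fin_cases i
    · exact pos_le hf1 he0.le t
    · exact pos_le hg1 he0.le t
  obtain ⟨c0, T0, hc0, hT0, hc⟩ := hcore 2 φ (fun i => (hφu i).cont.measurable) hφ0 hφ1
    (fun i => BAP_of_APu (hφu i))
  set δ : ℝ := min (min δ1 δ2) 1 with hδ
  have hδ0 : 0 < δ := lt_min (lt_min hδ1 hδ2) one_pos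
  refine ⟨min c0 (δ / (4 * Real.pi)), max T0 (16 / (κ * min 1 ε) + 10), by positivity,
    hT0.trans (le_max_left _ _), fun T hT H hH1 hH2 h a hh0 hh1 ha0 ha1 => ?_⟩
  have hTT0 : T0 ≤ T := (le_max_left _ _).trans hT
  have hT10 : 10 ≤ T := hT0.trans hTT0
  have hκT : 16 ≤ κ * min 1 ε * T := by
    have h1 : 16 / (κ * min 1 ε) ≤ T := by
      have := (le_max_right T0 (16 / (κ * min 1 ε) + 10)).trans hT
      linarith
    have h2 : 0 < κ * min 1 ε := by positivity
    rw [div_le_iff₀ h2] at h1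
    linarith
  have hκT1 : 16 ≤ κ * T := by
    refine hκT.trans ?_
    have : min 1 ε ≤ 1 := min_le_left _ _
    have h3 : κ * min 1 ε ≤ κ * 1 := by gcongr
    have h4 : κ * min 1 ε * T ≤ κ * 1 * T := by gcongr
    linarith
  have hκT2 : 16 ≤ ε * H := by
    refine hκT.trans ?_
    have : min 1 ε ≤ ε := min_le_right _ _
    calc κ * min 1 ε * T = min 1 ε * (κ * T) := by ring
      _ ≤ ε * H := by gcongr
  have hH16 : 16 ≤ H := hκT1.trans hH1
  have hKT0 : 0 ≤ K * T := mul_nonneg hK (by linarith)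
  have hKT1 : (K + 1) * T = K * T + T := by ring
  have hKT3 : (K + 3) * T = K * T + 3 * T := by ring
  set L := Real.log T with hL
  have hL0 : 0 < L := Real.log_pos (by linarith)
  have hac0 : a ≤ c0 * L := ha1.trans (by gcongr; exact min_le_left _ _)
  have haδ : a ≤ δ / (4 * Real.pi) * L := ha1.trans (by gcongr; exact min_le_right _ _)
  have ha24 : 24 * ℓ / ε ≤ a := by linarith
  have ha2 : 2 * ℓ ≤ a := by
    have : 0 ≤ 24 * ℓ / ε := by positivity
    linarith
  have ha00 : 0 < a := by linarith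
  set w : ℝ := 2 * Real.pi * ℓ / L with hw
  have hw0 : 0 < w := by positivity
  set D : ℝ := 2 * Real.pi * a / L with hD
  have hDδ : 2 * D ≤ δ := by
    rw [hD, mul_div_assoc', div_le_iff₀ hL0]
    calc 2 * (2 * Real.pi * a) ≤ 2 * (2 * Real.pi * (δ / (4 * Real.pi) * L)) := by gcongr
      _ = δ * L := by field_simp; ring
  have hD0 : 0 < D := by positivity
  have hδ1' : δ ≤ 1 := min_le_right _ _
  have hδf : δ ≤ δ1 := (min_le_left _ _).trans (min_le_left _ _)
  have hδg : δ ≤ δ2 := (min_le_left _ _).trans (min_le_right _ _)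
  -- the number of windows
  set q : ℕ := ⌊2 * a / ℓ⌋₊ with hq
  have hq1 : (q : ℝ) ≤ 2 * a / ℓ := Nat.floor_le (by positivity)
  have hq2 : 2 * a / ℓ < q + 1 := Nat.lt_floor_add_one _
  have hq4 : 2 ≤ q := by
    apply Nat.le_floor
    rw [le_div_iff₀ hℓ0]
    push_cast
    linarith
  set J : ℕ := q - 1 with hJ
  have hJq : (J : ℝ) = q - 1 := by
    rw [hJ, Nat.cast_sub (by omega)]; norm_num
  have hJ1 : (1 : ℝ) ≤ J := by
    rw [hJq]
    have : (2 : ℝ) ≤ q := by exact_mod_cast hq4
    linarith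
  have hJup : (J + 1) * ℓ ≤ 2 * a := by
    rw [hJq, sub_add_cancel]
    rwa [le_div_iff₀ hℓ0] at hq1
  have hJlow : 2 * a - 2 * ℓ ≤ J * ℓ := by
    rw [div_lt_iff₀ hℓ0] at hq2
    rw [hJq]
    linarith
  set V : ℝ := (J - 1) * w / 2 with hV
  have hV0 : 0 ≤ V := by
    rw [hV]
    have : 0 ≤ (J : ℝ) - 1 := by linarith
    positivity
  have hwL : w = 2 * Real.pi / L * ℓ := by rw [hw]; ring
  have hDL : D = 2 * Real.pi / L * a := by rw [hD]; ring
  have hVw : V + w ≤ D := by
    have e1 : V + w = (J + 1) * w / 2 := by rw [hV]; ring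
    rw [e1, hwL, hDL]
    calc (J + 1) * (2 * Real.pi / L * ℓ) / 2 = 2 * Real.pi / L * ((J + 1) * ℓ / 2) := by ring
      _ ≤ 2 * Real.pi / L * a := by gcongr; linarith
  have hJw : J * w ≤ 2 * D := by
    have e1 : (J : ℝ) * w ≤ (J + 1) * w := by gcongr; linarith
    rw [hwL, hDL] at *
    calc (J : ℝ) * (2 * Real.pi / L * ℓ) ≤ (J + 1) * (2 * Real.pi / L * ℓ) := e1
      _ = 2 * Real.pi / L * ((J + 1) * ℓ) := by ring
      _ ≤ 2 * Real.pi / L * (2 * a) := by gcongr
      _ = _ := by ring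
  have hJwV : J * w - V = V + w := by rw [hV]; ring
  -- the weight
  set aa : Fin 2 → ℝ := ![0, h] with haa
  set F : ℝ → ℝ := FW φ aa with hF
  have hFeq : ∀ t, F t = pos f e t * pos g e (t + h) := by
    intro t
    rw [hF]
    unfold FW
    rw [Fin.prod_univ_two]
    simp [hφ, haa]
  have hF0 : ∀ t, 0 ≤ F t := FW_nonneg hφ0 aa
  have hF1 : ∀ t, F t ≤ 1 := FW_le hφ0 hφ1 aa
  have hFm : Measurable F := FW_meas (fun i => (hφu i).cont.measurable) aa
  have iF : ∀ u v, IntervalIntegrable F volume u v := fun u v => ii_of hFm hF0 hF1 u v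
  set H' : ℝ := H - 1 with hH'
  have hH'1 : κ / 2 * T ≤ H' := by rw [hH']; linarith
  have hH'0 : 0 < H' := by rw [hH']; linarith
  have haK : ∀ i, 0 ≤ aa i ∧ aa i ≤ (K + 1) * T := by
    intro i
    fin_cases i
    · simp only [haa]
      refine ⟨le_rfl, ?_⟩
      show (0 : ℝ) ≤ (K + 1) * T
      positivity
    · simp only [haa]
      refine ⟨hh0, ?_⟩
      show h ≤ (K + 1) * T
      linarith
  have hℓa : ℓ ≤ c0 * L := by linarith
  set r : ℝ := 3 - 2 * cc 1 with hr
  have hr0 : 0 ≤ r := by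
    have := cc_one_le
    rw [hr]; linarith
  have hr3 : r ≤ 3 := by
    have := (abs_le.1 p_bd).2
    rw [hr]; linarith
  set IF : ℝ := ∫ t in T..(T + H'), F t with hIF
  have hDD : D ≤ 1 / 2 := by linarith
  -- the two windows
  have iY : ∀ b, 0 ≤ b → IntervalIntegrable (fun t => F t * YY ℓ w (t + b)) volume T (T + H') :=
    fun b hb => YY_ii hFm hF0 hF1 hℓ0 (by linarith) hb (by linarith)
  have iYY : ∀ b b', 0 ≤ b → 0 ≤ b' →
      IntervalIntegrable (fun t => F t * YY ℓ w (t + b) * YY ℓ w (t + b')) volume T (T + H') := by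
    intro b b' hb hb'
    set W : ℝ → ℝ := fun t => F t * min (nsm T (T + H' + b + w) w (t + b) / ℓ) 1 with hW
    have hWm : Measurable W := hFm.mul
      ((((nsm_meas _ _ _).comp (measurable_id.add_const _)).div_const _).min measurable_const)
    have hW0 : ∀ t, 0 ≤ W t := fun t => mul_nonneg (hF0 t)
      (le_min (div_nonneg (nsm_nonneg _ _ _ _) hℓ0.le) zero_le_one)
    have hW1 : ∀ t, W t ≤ 1 := fun t => mul_le_one₀ (hF1 t)
      (le_min (div_nonneg (nsm_nonneg _ _ _ _) hℓ0.le) zero_le_one) (min_le_right _ _)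
    have h2 := YY_ii (s := w) (b := b') (A := T) (B := T + H') hWm hW0 hW1 hℓ0 (by linarith) hb'
      (by linarith)
    refine h2.congr ?_
    intro t ht
    rw [Set.uIoc_of_le (by linarith)] at ht
    simp only [hW]
    congr 2
    unfold YY
    rw [nsm_eq (by linarith) (by linarith [ht.1]) (by linarith [ht.2])]
  have two : ∀ i : ℕ, i < J → r * IF - ε / 4 * H' ≤
      ∫ t in T..(T + H'), F t * YY ℓ w (t + V) * YY ℓ w (t + (h + i * w)) := by
    intro i hi
    have hiJ : (i : ℝ) ≤ J := by exact_mod_cast hi.le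
    have hiw : i * w ≤ 1 := by
      have : i * w ≤ J * w := by gcongr
      linarith
    have hiw0 : 0 ≤ i * w := by positivity
    have k1 := hc T hTT0 H' hH'1 (by linarith) aa V ℓ haK hV0 (by linarith) le_rfl hℓa
    have k2 := hc T hTT0 H' hH'1 (by linarith) aa (h + i * w) ℓ haK (by linarith)
      (by linarith) le_rfl hℓa
    have k3 : ∫ t in T..(T + H'), (F t * YY ℓ w (t + V) + F t * YY ℓ w (t + (h + i * w)) - F t) ≤
        ∫ t in T..(T + H'), F t * YY ℓ w (t + V) * YY ℓ w (t + (h + i * w)) := by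
      refine intervalIntegral.integral_mono_on (by linarith)
        (((iY _ hV0).add (iY _ (by linarith))).sub (iF _ _)) (iYY _ _ hV0 (by linarith))
        fun t _ => ?_
      have y1 := YY_le ℓ w (t + V)
      have y2 := YY_le ℓ w (t + (h + i * w))
      have y3 : 0 ≤ F t * ((1 - YY ℓ w (t + V)) * (1 - YY ℓ w (t + (h + i * w)))) :=
        mul_nonneg (hF0 t) (mul_nonneg (by linarith) (by linarith))
      have y4 : F t * ((1 - YY ℓ w (t + V)) * (1 - YY ℓ w (t + (h + i * w)))) =
        F t - F t * YY ℓ w (t + V) - F t * YY ℓ w (t + (h + i * w)) +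
          F t * YY ℓ w (t + V) * YY ℓ w (t + (h + i * w)) := by ring
      linarith
    rw [intervalIntegral.integral_sub ((iY _ hV0).add (iY _ (by linarith))) (iF _ _),
      intervalIntegral.integral_add (iY _ hV0) (iY _ (by linarith))] at k3
    refine le_trans ?_ k3
    rw [hr]
    linarith
  have hbi : ∀ i : ℕ, 0 ≤ h + i * w := fun i => by
    have : 0 ≤ (i : ℝ) * w := by positivity
    linarith
  -- the upper function
  set P := SZ T (T + H) with hP
  set P' := SZ T ((K + 3) * T) with hP'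
  set U : ℝ → ℝ := fun t => ∑ z ∈ P, ∑ z' ∈ P'.filter (fun z' => |z'.im - z.im - h| ≤ D),
    f z.im * g z'.im * iv w z.im (t + V) with hU
  have iiv : ∀ (C u : ℝ), IntervalIntegrable (fun t => C * iv w u (t + V)) volume T (T + H') := by
    intro C u
    refine IntervalIntegrable.const_mul ?_ _
    exact ii_of ((iv_meas w u).comp (measurable_id.add_const _)) (fun t => iv_nonneg _ _ _)
      (fun t => iv_le _ _ _) _ _
  have hUi : IntervalIntegrable U volume T (T + H') := by
    have := IntervalIntegrable.sum P fun z _ => IntervalIntegrable.sum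
      (P'.filter (fun z' => |z'.im - z.im - h| ≤ D)) fun z' _ => iiv (f z.im * g z'.im) z.im
    refine (funext fun t => ?_ : U = _) ▸ this
    rw [Finset.sum_apply]
    refine Finset.sum_congr rfl fun z _ => ?_
    rw [Finset.sum_apply]
  have hUint : ∫ t in T..(T + H'), U t ≤ w * PS T (T + H) ((K + 3) * T) h D f g := by
    have e1 : ∫ t in T..(T + H'), U t = ∑ z ∈ P, ∑ z' ∈ P'.filter (fun z' => |z'.im - z.im - h| ≤ D),
        f z.im * g z'.im * ∫ t in T..(T + H'), iv w z.im (t + V) := by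
      simp only [hU]
      rw [intervalIntegral.integral_finsetSum]
      · refine Finset.sum_congr rfl fun z _ => ?_
        rw [intervalIntegral.integral_finsetSum fun z' _ => iiv _ _]
        refine Finset.sum_congr rfl fun z' _ => ?_
        rw [intervalIntegral.integral_const_mul]
      · intro z _
        have := IntervalIntegrable.sum
          (P'.filter (fun z' => |z'.im - z.im - h| ≤ D)) fun z' _ => iiv (f z.im * g z'.im) z.im
        refine (funext fun t => ?_ : (fun t => ∑ z' ∈ P'.filter (fun z' => |z'.im - z.im - h| ≤ D),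
          f z.im * g z'.im * iv w z.im (t + V)) = _) ▸ this
        rw [Finset.sum_apply]
    rw [e1]
    unfold PS
    rw [Finset.mul_sum]
    refine Finset.sum_le_sum fun z _ => ?_
    rw [Finset.mul_sum]
    refine Finset.sum_le_sum fun z' _ => ?_
    rw [mul_comm w]
    apply mul_le_mul_of_nonneg_left (int_iv_le hw0.le (by linarith))
      (mul_nonneg (hf0 _) (hg0 _))
  -- pointwise comparison
  have hpt : ∀ t ∈ Icc T (T + H'),
      ∑ i ∈ Finset.range J, ℓ ^ 2 * (F t * YY ℓ w (t + V) * YY ℓ w (t + (h + i * w))) ≤ U t := by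
    intro t ht
    have n1 : ns (t + V) w = ∑ z ∈ P, iv w z.im (t + V) :=
      ns_eq (by linarith) (by linarith [ht.1]) (by linarith [ht.2])
    have n2 : ∀ i ∈ Finset.range J, ns (t + (h + i * w)) w = ∑ z' ∈ P', iv w z'.im (t + h + i * w) := by
      intro i hi
      have hiJ : (i : ℝ) + 1 ≤ J := by exact_mod_cast Finset.mem_range.1 hi
      have h1 : (i : ℝ) * w + w ≤ J * w := by
        calc (i : ℝ) * w + w = (i + 1) * w := by ring
          _ ≤ J * w := by gcongr
      have h2 : 0 ≤ (i : ℝ) * w := by positivity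
      rw [ns_eq (A := T) (B := (K + 3) * T) (by linarith) (by linarith [ht.1])
        (by linarith [ht.2])]
      refine Finset.sum_congr rfl fun z' _ => ?_
      congr 1
      ring
    have n3 : ∑ i ∈ Finset.range J, ns (t + (h + i * w)) w = ∑ z' ∈ P', iv (J * w) z'.im (t + h) := by
      rw [Finset.sum_congr rfl n2, Finset.sum_comm]
      exact Finset.sum_congr rfl fun z' _ => iv_sum hw0.le J _ _
    have m1 : ∑ i ∈ Finset.range J, ℓ ^ 2 * (F t * YY ℓ w (t + V) * YY ℓ w (t + (h + i * w))) ≤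
        F t * ns (t + V) w * ∑ i ∈ Finset.range J, ns (t + (h + i * w)) w := by
      rw [Finset.mul_sum]
      refine Finset.sum_le_sum fun i _ => ?_
      have y1 := YY_mul_le hℓ0 w (t + V)
      have y2 := YY_mul_le hℓ0 w (t + (h + i * w))
      have y3 := YY_nonneg hℓ0 w (t + V)
      have y4 := YY_nonneg hℓ0 w (t + (h + i * w))
      calc ℓ ^ 2 * (F t * YY ℓ w (t + V) * YY ℓ w (t + (h + i * w))) =
          F t * (ℓ * YY ℓ w (t + V)) * (ℓ * YY ℓ w (t + (h + i * w))) := by ring
        _ ≤ F t * ns (t + V) w * ns (t + (h + i * w)) w := by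
          have := hF0 t
          have := ns_nonneg (t + V) w
          gcongr
    refine m1.trans ?_
    rw [n3, n1]
    have m2 : F t * (∑ z ∈ P, iv w z.im (t + V)) * ∑ z' ∈ P', iv (J * w) z'.im (t + h) =
        ∑ z ∈ P, ∑ z' ∈ P', F t * iv w z.im (t + V) * iv (J * w) z'.im (t + h) := by
      rw [mul_assoc, Finset.sum_mul_sum, Finset.mul_sum]
      refine Finset.sum_congr rfl fun z _ => ?_
      rw [Finset.mul_sum]
      refine Finset.sum_congr rfl fun z' _ => ?_
      ring
    rw [m2]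
    simp only [hU]
    refine Finset.sum_le_sum fun z _ => ?_
    rw [Finset.sum_filter]
    refine Finset.sum_le_sum fun z' _ => ?_
    have g0 : 0 ≤ f z.im * g z'.im * iv w z.im (t + V) :=
      mul_nonneg (mul_nonneg (hf0 _) (hg0 _)) (iv_nonneg _ _ _)
    by_cases c1 : t + V < z.im ∧ z.im ≤ t + V + w
    · by_cases c2 : t + h < z'.im ∧ z'.im ≤ t + h + J * w
      · have d1 : |z'.im - z.im - h| ≤ D := by
          rw [abs_le]
          constructor
          · linarith [c1.2, c2.1]
          · linarith [c1.1, c2.2]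
        rw [if_pos d1, iv_eq w, if_pos c1, iv_eq (J * w), if_pos c2, mul_one, mul_one, mul_one, hFeq]
        have p1 : pos f e t ≤ f z.im := pos_le_of hf0 (hmf _ _ (by
          rw [abs_sub_comm, abs_of_nonneg (by linarith [c1.1])]
          linarith [c1.2]))
        have p2 : pos g e (t + h) ≤ g z'.im := pos_le_of hg0 (hmg _ _ (by
          rw [abs_sub_comm, abs_of_nonneg (by linarith [c2.1])]
          linarith [c2.2]))
        exact mul_le_mul p1 p2 (pos_nonneg _ _ _) (hf0 _)
      · rw [iv_eq (J * w), if_neg c2, mul_zero]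
        split_ifs
        · exact g0
        · exact le_rfl
    · have : iv w z.im (t + V) = 0 := by rw [iv_eq, if_neg c1]
      rw [this]
      simp
  -- assemble
  have s1 : ℓ ^ 2 * (J * (r * IF - ε / 4 * H')) ≤ w * PS T (T + H) ((K + 3) * T) h D f g := by
    refine le_trans ?_ hUint
    have e1 : ∫ t in T..(T + H'), ∑ i ∈ Finset.range J,
        ℓ ^ 2 * (F t * YY ℓ w (t + V) * YY ℓ w (t + (h + i * w))) ≤ ∫ t in T..(T + H'), U t := by
      refine intervalIntegral.integral_mono_on (by linarith) ?_ hUi fun t ht => hpt t ht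
      have := IntervalIntegrable.sum (Finset.range J) fun (i : ℕ) _ =>
        (iYY V (h + i * w) hV0 (hbi i)).const_mul (ℓ ^ 2)
      refine (funext fun t => ?_ : (fun t => ∑ i ∈ Finset.range J,
        ℓ ^ 2 * (F t * YY ℓ w (t + V) * YY ℓ w (t + (h + i * w)))) = _) ▸ this
      rw [Finset.sum_apply]
    refine le_trans ?_ e1
    rw [intervalIntegral.integral_finsetSum fun (i : ℕ) _ =>
      (iYY V (h + i * w) hV0 (hbi i)).const_mul (ℓ ^ 2)]
    calc ℓ ^ 2 * (J * (r * IF - ε / 4 * H')) =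
        ∑ _i ∈ Finset.range J, ℓ ^ 2 * (r * IF - ε / 4 * H') := by
          rw [Finset.sum_const, Finset.card_range, nsmul_eq_mul]; ring
      _ ≤ _ := by
        refine Finset.sum_le_sum fun i hi => ?_
        rw [intervalIntegral.integral_const_mul]
        gcongr
        exact two i (Finset.mem_range.1 hi)
  set X : ℝ := r * IF - ε / 4 * H' with hX
  set Q : ℝ := PS T (T + H) ((K + 3) * T) h D f g with hQ
  have hQ0 : 0 ≤ Q := Finset.sum_nonneg fun z _ => Finset.sum_nonneg fun z' _ =>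
    mul_nonneg (hf0 _) (hg0 _)
  have s2 : J * ℓ * (L / (2 * Real.pi)) * X ≤ Q := by
    have e1 : ℓ ^ 2 * (J * X) = w * (J * ℓ * (L / (2 * Real.pi)) * X) := by
      rw [hw]; field_simp
    rw [e1] at s1
    exact le_of_mul_le_mul_left s1 hw0
  -- the weight
  have hfgc : Continuous fun t => f t * g (t + h) :=
    hf.cont.mul (hg.cont.comp (continuous_id.add continuous_const))
  have s3 : (∫ t in T..(T + H), f t * g (t + h)) ≤ IF + 2 * e * H' + 1 := by
    have e1 : ∫ t in T..(T + H), f t * g (t + h) = (∫ t in T..(T + H'), f t * g (t + h)) +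
        ∫ t in (T + H')..(T + H), f t * g (t + h) :=
      (intervalIntegral.integral_add_adjacent_intervals (hfgc.intervalIntegrable _ _)
        (hfgc.intervalIntegrable _ _)).symm
    have e2 : ∫ t in (T + H')..(T + H), f t * g (t + h) ≤ 1 := by
      have h3 : ∫ t in (T + H')..(T + H), f t * g (t + h) ≤ ∫ _t in (T + H')..(T + H), (1 : ℝ) := by
        refine intervalIntegral.integral_mono_on (by linarith) (hfgc.intervalIntegrable _ _)
          intervalIntegrable_const fun t _ => mul_le_one₀ (hf1 _) (hg0 _) (hg1 _)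
      rw [intervalIntegral.integral_const, smul_eq_mul, mul_one] at h3
      linarith
    have e3 : ∫ t in T..(T + H'), (f t * g (t + h) - 2 * e) ≤ IF := by
      refine intervalIntegral.integral_mono_on (by linarith)
        ((hfgc.intervalIntegrable _ _).sub intervalIntegrable_const) (iF _ _) fun t _ => ?_
      rw [hFeq]
      exact pos_mul (hf0 _) (hf1 _) (hg0 _) (hg1 _) he0.le
    rw [intervalIntegral.integral_sub (hfgc.intervalIntegrable _ _) intervalIntegrable_const,
      intervalIntegral.integral_const, smul_eq_mul] at e3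
    rw [e1]
    have e4 : (T + H' - T) * (2 * e) = 2 * e * H' := by ring
    linarith
  set IG : ℝ := ∫ t in T..(T + H), f t * g (t + h) with hIG
  have s4 : r * IG - ε / 2 * H - 3 ≤ X - (ε / 4 - 6 * e) * H + 0 * H := by
    have e1 : r * IG ≤ r * IF + r * (2 * e * H') + r * 1 := by
      calc r * IG ≤ r * (IF + 2 * e * H' + 1) := by gcongr
        _ = _ := by ring
    have e2 : r * (2 * e * H') ≤ 3 * (2 * e * H) := by
      have h1 : 2 * e * H' ≤ 2 * e * H := by gcongr; linarith
      have h0 : 0 ≤ 2 * e * H' := by positivity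
      exact mul_le_mul hr3 h1 h0 (by norm_num)
    have e3 : ε / 4 * H' ≤ ε / 4 * H := by gcongr; linarith
    rw [hX]
    linarith
  have s5 : r * IG - ε * H ≤ X - ε / 4 * H := by
    have e1 : (ε / 4 - 6 * e) * H = ε / 16 * H := by rw [he]; ring
    rw [e1] at s4
    linarith
  have hLp : 0 < L / (2 * Real.pi) := by positivity
  rcases le_or_gt X 0 with hX0 | hX0
  · have : r * IG - ε * H ≤ 0 := by
      have : 0 ≤ ε / 4 * H := by positivity
      linarith
    refine le_trans ?_ hQ0
    exact mul_nonpos_of_nonneg_of_nonpos (by positivity) this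
  · have hIF1 : IF ≤ H' := by
      have h3 : IF ≤ ∫ _t in T..(T + H'), (1 : ℝ) :=
        intervalIntegral.integral_mono_on (by linarith) (iF _ _)
          intervalIntegrable_const fun t _ => hF1 t
      rw [intervalIntegral.integral_const, smul_eq_mul, mul_one] at h3
      linarith
    have hX3 : X ≤ 3 * H := by
      have hIF0 : 0 ≤ IF := intervalIntegral.integral_nonneg (by linarith) fun t _ => hF0 t
      have e1 : r * IF ≤ 3 * IF := by gcongr
      have e2 : 0 ≤ ε / 4 * H' := by positivity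
      rw [hX]
      linarith
    have e1 : 2 * ℓ * X ≤ 2 * a * (ε / 4 * H) := by
      have e2 : 2 * ℓ * X ≤ 2 * ℓ * (3 * H) := by gcongr
      have e3 : 24 * ℓ ≤ a * ε := by rwa [div_le_iff₀ hε] at ha24
      have hHH : 0 ≤ H := by linarith
      have e5 : 24 * ℓ * H ≤ a * ε * H := by gcongr
      have e6 : 0 ≤ a * ε * H := by positivity
      linarith
    have e2 : 2 * a * (r * IG - ε * H) ≤ J * ℓ * X := by
      have e3 : 2 * a * (r * IG - ε * H) ≤ 2 * a * (X - ε / 4 * H) := by gcongr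
      have e4 : (2 * a - 2 * ℓ) * X ≤ J * ℓ * X := by gcongr
      linarith
    calc 2 * a * (L / (2 * Real.pi)) * (r * IG - ε * H) =
        2 * a * (r * IG - ε * H) * (L / (2 * Real.pi)) := by ring
      _ ≤ J * ℓ * X * (L / (2 * Real.pi)) := by gcongr
      _ = J * ℓ * (L / (2 * Real.pi)) * X := by ring
      _ ≤ Q := s2

end Pool.Agent.H493.WB
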