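import Pool.Agent.H493.WB.Bes

/-! Many windows with many simple zeros. -/

set_option autoImplicit false

open Complex Filter Topology Set MeasureTheory
open scoped BigOperators ComplexConjugate

namespace Pool.Agent.H493.WB

open H370 TH803TW H295SI Pool.Agent.H493.BS

open Classical in
/-- the number of the windows with more than `x` simple zeros -/
noncomputable def nw {m : ℕ} (b : Fin m → ℝ) (x s t : ℝ) : ℕ :=
  (Finset.univ.filter fun j => x < ns (t + b j) s).card

open Classical in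
noncomputable def nwm {m : ℕ} (A B : ℝ) (b : Fin m → ℝ) (x s t : ℝ) : ℝ :=
  ∑ j, if x < nsm A B s (t + b j) then 1 else 0

lemma nwm_meas {m : ℕ} (A B : ℝ) (b : Fin m → ℝ) (x s : ℝ) : Measurable (nwm A B b x s) := by
  unfold nwm
  refine Finset.measurable_fun_sum _ fun j _ => ?_
  refine Measurable.ite ?_ measurable_const measurable_const
  exact measurableSet_lt measurable_const ((nsm_meas _ _ _).comp (measurable_id.add_const _))

lemma nwm_eq {m : ℕ} {A B s t : ℝ} {b : Fin m → ℝ} (x : ℝ) (hA : 1 ≤ A) (h1 : ∀ j, A ≤ t + b j)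
    (h2 : ∀ j, t + b j + s ≤ B) : nwm A B b x s t = nw b x s t := by
  classical
  unfold nwm nw
  rw [Finset.card_filter]
  push_cast
  refine Finset.sum_congr rfl fun j _ => ?_
  rw [nsm_eq hA (h1 j) (h2 j)]

lemma nw_le {m : ℕ} (b : Fin m → ℝ) (x s t : ℝ) : nw b x s t ≤ m := by
  unfold nw
  refine (Finset.card_le_univ _).trans ?_
  simp

/-- **many windows** -/
theorem many_windows {κ K ε θ : ℝ} (hκ : 0 < κ) (hK : 0 ≤ K) (hε : 0 < ε) (hθ0 : 0 ≤ θ)
    (hθ1 : θ < 1) {m k : ℕ} (hkm : k < m) :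
    ∃ ℓ0 : ℝ, 1 ≤ ℓ0 ∧ ∀ (n : ℕ) (φ : Fin n → ℝ → ℝ), (∀ i, Measurable (φ i)) →
      (∀ i t, 0 ≤ φ i t) → (∀ i t, φ i t ≤ 1) → (∀ i, BAP (φ i)) →
      ∃ c0 T0 : ℝ, 0 < c0 ∧ 10 ≤ T0 ∧ ∀ T : ℝ, T0 ≤ T → ∀ H : ℝ, κ * T ≤ H → H ≤ T →
        ∀ (a : Fin n → ℝ) (b : Fin m → ℝ) (ℓ : ℝ), (∀ i, 0 ≤ a i ∧ a i ≤ K * T) →
          (∀ j, 0 ≤ b j ∧ b j ≤ K * T) → ℓ0 ≤ ℓ → ℓ ≤ c0 * Real.log T →
        (m * ((2 - cc 1 - θ) / (1 - θ)) - k) / (m - k) * (∫ t in T..(T + H), FW φ a t) - ε * H ≤
          ∫ t in {t | t ∈ Set.Ioc T (T + H) ∧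
            k < nw b (θ * ℓ) (2 * Real.pi * ℓ / Real.log T) t}, FW φ a t := by
  classical
  have hpi := Real.pi_pos
  have hm0 : (0 : ℝ) < m := by exact_mod_cast (Nat.zero_le k).trans_lt hkm
  have hmk : (1 : ℝ) ≤ m - k := by
    have : (k : ℝ) + 1 ≤ m := by exact_mod_cast hkm
    linarith
  have hθ' : 0 < 1 - θ := by linarith
  obtain ⟨ℓ0, hℓ0, hcore⟩ := bes_core hκ hK (ε := ε * (1 - θ) / m) (by positivity)
  refine ⟨ℓ0, hℓ0, fun n φ hm h0 h1 hB => ?_⟩
  obtain ⟨c0, T0, hc0, hT0, hc⟩ := hcore n φ hm h0 h1 hB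
  refine ⟨min c0 (1 / (2 * Real.pi)), T0, by positivity, hT0,
    fun T hT H hH1 hH2 a b ℓ ha hb hℓ1 hℓ2 => ?_⟩
  have hT10 : 10 ≤ T := hT0.trans hT
  have hH0 : 0 ≤ H := le_trans (by positivity) hH1
  set L := Real.log T with hL
  have hL0 : 0 < L := Real.log_pos (by linarith)
  have hℓpos : 0 < ℓ := by linarith
  have hℓc : ℓ ≤ c0 * L := hℓ2.trans (by gcongr; exact min_le_left _ _)
  set s : ℝ := 2 * Real.pi * ℓ / L with hs
  have hs_pos : 0 < s := by positivity
  have hs1 : s ≤ 1 := by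
    rw [hs, div_le_one hL0]
    have : ℓ ≤ 1 / (2 * Real.pi) * L := hℓ2.trans (by gcongr; exact min_le_right _ _)
    calc 2 * Real.pi * ℓ ≤ 2 * Real.pi * (1 / (2 * Real.pi) * L) := by gcongr
      _ = L := by field_simp
  set B : ℝ := T + H + K * T + 1 with hBd
  set x : ℝ := θ * ℓ with hx
  set F : ℝ → ℝ := FW φ a with hF
  have hF0 : ∀ t, 0 ≤ F t := FW_nonneg h0 a
  have hF1 : ∀ t, F t ≤ 1 := FW_le h0 h1 a
  have hFm : Measurable F := FW_meas hm a
  have iF : ∀ u v, IntervalIntegrable F volume u v := fun u v => ii_of hFm hF0 hF1 u v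
  set E : Set ℝ := {t | (k : ℝ) < nwm T B b x s t} with hE
  have hEm : MeasurableSet E := measurableSet_lt measurable_const (nwm_meas _ _ _ _ _)
  have hset : {t | t ∈ Set.Ioc T (T + H) ∧ k < nw b x s t} = Set.Ioc T (T + H) ∩ E := by
    ext t
    simp only [Set.mem_ofPred_eq, Set.mem_inter_iff, hE]
    refine and_congr_right fun ht => ?_
    rw [nwm_eq x (by linarith) (fun j => by linarith [(hb j).1, ht.1]) (fun j => by
      rw [hBd]; linarith [(hb j).2, ht.2])]
    exact Nat.cast_lt.symm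
  rw [hset]
  have e1 : ∫ t in Set.Ioc T (T + H) ∩ E, F t = ∫ t in T..(T + H), E.indicator F t := by
    rw [intervalIntegral.integral_of_le (by linarith), setIntegral_indicator hEm]
  rw [e1]
  -- each window
  set Zj : Fin m → ℝ → ℝ := fun j t => if x < nsm T B s (t + b j) then 1 else 0 with hZ
  have hZm : ∀ j, Measurable (Zj j) := fun j =>
    Measurable.ite (measurableSet_lt measurable_const ((nsm_meas _ _ _).comp
      (measurable_id.add_const _))) measurable_const measurable_const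
  have hZ0 : ∀ j t, 0 ≤ Zj j t := fun j t => by
    simp only [hZ]; split_ifs <;> norm_num
  have hZ1 : ∀ j t, Zj j t ≤ 1 := fun j t => by
    simp only [hZ]; split_ifs <;> norm_num
  have iFZ : ∀ j, IntervalIntegrable (fun t => F t * Zj j t) volume T (T + H) := fun j =>
    ii_of (hFm.mul (hZm j)) (fun t => mul_nonneg (hF0 t) (hZ0 j t))
      (fun t => mul_le_one₀ (hF1 t) (hZ0 j t) (hZ1 j t)) _ _
  set IF : ℝ := ∫ t in T..(T + H), F t with hIF
  have w1 : ∀ j, (2 - cc 1 - θ) / (1 - θ) * IF - ε / m * H ≤ ∫ t in T..(T + H), F t * Zj j t := by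
    intro j
    have k1 := hc T hT H hH1 hH2 a (b j) ℓ ha (hb j).1 (hb j).2 hℓ1 hℓc
    have k2 : ∫ t in T..(T + H), F t * YY ℓ s (t + b j) ≤
        ∫ t in T..(T + H), (θ * F t + (1 - θ) * (F t * Zj j t)) := by
      refine intervalIntegral.integral_mono_on (by linarith)
        (YY_ii hFm hF0 hF1 hℓpos (by linarith) (hb j).1 (by linarith))
        (((iF _ _).const_mul _).add ((iFZ j).const_mul _)) fun t ht => ?_
      have e3 : YY ℓ s (t + b j) ≤ θ + (1 - θ) * Zj j t := by
        have e4 : nsm T B s (t + b j) = ns (t + b j) s :=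
          nsm_eq (by linarith) (by linarith [(hb j).1, ht.1]) (by
            rw [hBd]; linarith [(hb j).2, ht.2])
        simp only [hZ]
        rw [e4]
        split_ifs with h
        · have := YY_le ℓ s (t + b j)
          linarith
        · push Not at h
          have : YY ℓ s (t + b j) ≤ ns (t + b j) s / ℓ := min_le_left _ _
          have e5 : ns (t + b j) s / ℓ ≤ θ := by
            rw [div_le_iff₀ hℓpos]; exact h
          linarith
      calc F t * YY ℓ s (t + b j) ≤ F t * (θ + (1 - θ) * Zj j t) :=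
          mul_le_mul_of_nonneg_left e3 (hF0 t)
        _ = _ := by ring
    rw [intervalIntegral.integral_add ((iF _ _).const_mul _) ((iFZ j).const_mul _),
      intervalIntegral.integral_const_mul, intervalIntegral.integral_const_mul] at k2
    have k3 := k1.trans k2
    have k4 : ((2 - cc 1 - θ) * IF - ε * (1 - θ) / m * H) / (1 - θ) ≤
        ∫ t in T..(T + H), F t * Zj j t := by
      rw [div_le_iff₀ hθ']
      linarith
    refine le_trans (le_of_eq ?_) k4
    field_simp
  -- the sum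
  have w2 : ∫ t in T..(T + H), (∑ j, F t * Zj j t - k * F t) ≤
      ∫ t in T..(T + H), ((m : ℝ) - k) * E.indicator F t := by
    have i1 : IntervalIntegrable (fun t => ∑ j, F t * Zj j t) volume T (T + H) := by
      have := IntervalIntegrable.sum Finset.univ fun i _ => iFZ i
      refine (funext fun t => ?_ : (fun t => ∑ j, F t * Zj j t) = _) ▸ this
      rw [Finset.sum_apply]
    have i2 : IntervalIntegrable (E.indicator F) volume T (T + H) := by
      refine ii_of (hFm.indicator hEm) (fun t => Set.indicator_nonneg (fun t _ => hF0 t) t)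
        (fun t => ?_) _ _
      exact (Set.indicator_le_self' (fun t _ => hF0 t) t).trans (hF1 t)
    refine intervalIntegral.integral_mono_on (by linarith) (i1.sub ((iF _ _).const_mul _))
      (i2.const_mul _) fun t _ => ?_
    have e2 : ∑ j, F t * Zj j t = F t * nwm T B b x s t := by
      unfold nwm
      rw [Finset.mul_sum]
    rw [e2]
    have hnm : nwm T B b x s t ≤ m := by
      have : nwm T B b x s t ≤ ∑ _j : Fin m, (1 : ℝ) := by
        unfold nwm
        exact Finset.sum_le_sum fun j _ => hZ1 j t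
      simpa using this
    by_cases ht : t ∈ E
    · rw [Set.indicator_of_mem ht]
      have := hF0 t
      nlinarith
    · rw [Set.indicator_of_notMem ht]
      have h3 : nwm T B b x s t ≤ k := not_lt.1 ht
      have := hF0 t
      nlinarith
  have w3 : ∫ t in T..(T + H), (∑ j, F t * Zj j t - k * F t) =
      ∑ j, (∫ t in T..(T + H), F t * Zj j t) - k * IF := by
    have i1 : IntervalIntegrable (fun t => ∑ j, F t * Zj j t) volume T (T + H) := by
      have := IntervalIntegrable.sum Finset.univ fun i _ => iFZ i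
      refine (funext fun t => ?_ : (fun t => ∑ j, F t * Zj j t) = _) ▸ this
      rw [Finset.sum_apply]
    rw [intervalIntegral.integral_sub i1 ((iF _ _).const_mul _), intervalIntegral.integral_const_mul,
      intervalIntegral.integral_finsetSum fun j _ => iFZ j]
  rw [w3, intervalIntegral.integral_const_mul] at w2
  have w4 : (m : ℝ) * ((2 - cc 1 - θ) / (1 - θ) * IF - ε / m * H) ≤
      ∑ j, ∫ t in T..(T + H), F t * Zj j t := by
    calc (m : ℝ) * ((2 - cc 1 - θ) / (1 - θ) * IF - ε / m * H) =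
        ∑ _j : Fin m, ((2 - cc 1 - θ) / (1 - θ) * IF - ε / m * H) := by
          rw [Finset.sum_const, Finset.card_univ, Fintype.card_fin, nsmul_eq_mul]
      _ ≤ _ := Finset.sum_le_sum fun j _ => w1 j
  have w5 : (m : ℝ) * ((2 - cc 1 - θ) / (1 - θ) * IF - ε / m * H) =
      m * ((2 - cc 1 - θ) / (1 - θ)) * IF - ε * H := by
    field_simp
  set J : ℝ := ∫ t in T..(T + H), E.indicator F t with hJ
  have w6 : (m * ((2 - cc 1 - θ) / (1 - θ)) - k) * IF - ε * H ≤ ((m : ℝ) - k) * J := by
    linarith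
  have hmk0 : (0 : ℝ) < m - k := by linarith
  have w7 : ((m * ((2 - cc 1 - θ) / (1 - θ)) - k) * IF - ε * H) / ((m : ℝ) - k) ≤ J := by
    rw [div_le_iff₀ hmk0, mul_comm J]
    exact w6
  refine le_trans ?_ w7
  have w8 : ε * H / ((m : ℝ) - k) ≤ ε * H := div_le_self (by positivity) hmk
  have w9 : ((m * ((2 - cc 1 - θ) / (1 - θ)) - k) * IF - ε * H) / ((m : ℝ) - k) =
      (m * ((2 - cc 1 - θ) / (1 - θ)) - k) / (m - k) * IF - ε * H / ((m : ℝ) - k) := by
    field_simp
  linarith

end Pool.Agent.H493.WB
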