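import Pool.Agent.H493.WB.Net
import Pool.Agent.H203.ME.ALL2

/-! Windows of bounded length: the truncated counts of the simple zeros on the line, with an almost
periodic weight. -/

set_option autoImplicit false

open Complex Filter Topology Set MeasureTheory
open scoped BigOperators ComplexConjugate

namespace Pool.Agent.H493.WB

open H370 TH803TW H295SI Pool.Agent.H493.BS Pool.Agent.H203.ME

/-- modulus of continuity of an almost periodic function -/
lemma modulus {G : ℝ → ℝ} (h : APu G) {η : ℝ} (hη : 0 < η) :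
    ∃ δ : ℝ, 0 < δ ∧ ∀ x y : ℝ, |x - y| ≤ δ → |G x - G y| ≤ η := by
  obtain ⟨S, c, hS⟩ := h (η / 3) (by positivity)
  set A : ℝ := ∑ τ ∈ S, ‖c τ‖ * |τ| with hA
  have hA0 : 0 ≤ A := Finset.sum_nonneg fun _ _ => by positivity
  refine ⟨η / (3 * (A + 1)), by positivity, fun x y hxy => ?_⟩
  have h1 : |tp S c x - tp S c y| ≤ A * |x - y| := by
    unfold tp
    rw [← Complex.sub_re, ← Finset.sum_sub_distrib]
    refine (Complex.abs_re_le_norm _).trans ((norm_sum_le _ _).trans ?_)
    rw [hA, Finset.sum_mul]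
    refine Finset.sum_le_sum fun τ _ => ?_
    rw [← mul_sub, norm_mul, mul_assoc ‖c τ‖]
    apply mul_le_mul_of_nonneg_left _ (norm_nonneg _)
    have e : cexp (I * τ * x) - cexp (I * τ * y) =
        cexp (I * τ * y) * (cexp (I * (τ * (x - y) : ℝ)) - 1) := by
      rw [mul_sub, ← Complex.exp_add, mul_one]
      congr 2
      push_cast
      ring
    rw [e, norm_mul, tw_exp_norm, one_mul]
    have h2 := Real.norm_exp_I_mul_ofReal_sub_one_le (x := τ * (x - y))
    refine h2.trans ?_
    rw [Real.norm_eq_abs, abs_mul]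
  have h2 := hS x
  have h3 := hS y
  have h4 : A * |x - y| ≤ η / 3 := by
    calc A * |x - y| ≤ (A + 1) * (η / (3 * (A + 1))) := by gcongr; linarith
      _ = η / 3 := by field_simp
  rw [abs_le] at *
  constructor <;> linarith [h1.1, h1.2, h2.1, h2.2, h3.1, h3.2, h4]

/-- `1` if `u` is in the window `(t, t + s]` -/
noncomputable def iv (s u t : ℝ) : ℝ := (Set.Ico (u - s) u).indicator (fun _ => (1 : ℝ)) t

lemma iv_eq (s u t : ℝ) : iv s u t = if t < u ∧ u ≤ t + s then 1 else 0 := by
  classical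
  unfold iv
  rw [Set.indicator_apply]
  congr 1
  rw [Set.mem_Ico]
  apply propext
  constructor
  · rintro ⟨h1, h2⟩; exact ⟨h2, by linarith⟩
  · rintro ⟨h1, h2⟩; exact ⟨by linarith, h1⟩

lemma iv_eq' (s u t : ℝ) : iv s u t = (Set.Ioc t (t + s)).indicator (fun _ => (1 : ℝ)) u := by
  classical
  rw [iv_eq, Set.indicator_apply]
  rfl

lemma iv_nonneg (s u t : ℝ) : 0 ≤ iv s u t := Set.indicator_nonneg (fun _ _ => zero_le_one) _

lemma iv_le (s u t : ℝ) : iv s u t ≤ 1 := by
  rw [iv_eq]; split_ifs <;> norm_num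

lemma iv_meas (s u : ℝ) : Measurable (iv s u) := measurable_const.indicator measurableSet_Ico

lemma bdd_ii {f : ℝ → ℝ} (hf : Measurable f) {C : ℝ} (hC : ∀ t, |f t| ≤ C) (a b : ℝ) :
    IntervalIntegrable f volume a b := by
  refine (intervalIntegrable_const (c := C)).mono_fun hf.aestronglyMeasurable ?_
  refine Filter.Eventually.of_forall fun t => ?_
  simp only [Real.norm_eq_abs]
  exact (hC t).trans (le_abs_self _)

/-- the integral of a function over the heights whose window contains `u` -/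
lemma int_iv {G : ℝ → ℝ} (hG : Continuous G) (h0 : ∀ t, 0 ≤ G t) {s A B u η : ℝ}
    (hs : 0 ≤ s) (hA : A + s ≤ u) (hB : u ≤ B)
    (hη : ∀ t, |t - u| ≤ s → G u - η ≤ G t) :
    s * (G u - η) ≤ ∫ t in A..B, G t * iv s u t := by
  have hii : ∀ a b, IntervalIntegrable (fun t => G t * iv s u t) volume a b := by
    intro a b
    have h1 : (fun t => G t * iv s u t) = (Set.Ico (u - s) u).indicator G := by
      funext t
      unfold iv
      by_cases h : t ∈ Set.Ico (u - s) u
      · rw [Set.indicator_of_mem h, Set.indicator_of_mem h, mul_one]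
      · rw [Set.indicator_of_notMem h, Set.indicator_of_notMem h, mul_zero]
    rw [h1]
    rw [intervalIntegrable_iff]
    exact ((hG.integrableOn_uIcc.mono_set uIoc_subset_uIcc).indicator measurableSet_Ico)
  have h1 : ∫ t in A..B, G t * iv s u t = (∫ t in A..(u - s), G t * iv s u t) +
      (∫ t in (u - s)..u, G t * iv s u t) + ∫ t in u..B, G t * iv s u t := by
    rw [intervalIntegral.integral_add_adjacent_intervals (hii _ _) (hii _ _),
      intervalIntegral.integral_add_adjacent_intervals (hii _ _) (hii _ _)]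
  have h2 : 0 ≤ ∫ t in A..(u - s), G t * iv s u t :=
    intervalIntegral.integral_nonneg (by linarith) fun t _ => mul_nonneg (h0 t) (iv_nonneg _ _ _)
  have h3 : 0 ≤ ∫ t in u..B, G t * iv s u t :=
    intervalIntegral.integral_nonneg hB fun t _ => mul_nonneg (h0 t) (iv_nonneg _ _ _)
  have h4 : s * (G u - η) ≤ ∫ t in (u - s)..u, G t * iv s u t := by
    have h5 : ∫ t in (u - s)..u, G t * iv s u t = ∫ t in (u - s)..u, G t := by
      apply intervalIntegral.integral_congr_ae
      have hae : ∀ᵐ t : ℝ, t ≠ u := by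
        simp [ae_iff]
      filter_upwards [hae] with t ht ht2
      rw [Set.uIoc_of_le (by linarith)] at ht2
      have : iv s u t = 1 := by
        rw [iv_eq, if_pos]
        exact ⟨lt_of_le_of_ne ht2.2 ht, by linarith [ht2.1]⟩
      rw [this, mul_one]
    rw [h5]
    have h6 : ∫ _t in (u - s)..u, (G u - η) ≤ ∫ t in (u - s)..u, G t := by
      refine intervalIntegral.integral_mono_on (by linarith) intervalIntegrable_const
        (hG.intervalIntegrable _ _) fun t ht => hη t ?_
      rw [abs_le]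
      constructor <;> linarith [ht.1, ht.2]
    rw [intervalIntegral.integral_const, smul_eq_mul] at h6
    have e : u - (u - s) = s := by ring
    rwa [e] at h6
  linarith

open Classical in
/-- the number of the simple zeros on the line with ordinate in the window `(t, t + s]` -/
noncomputable def ns (t s : ℝ) : ℝ :=
  (((Zf riemannZeta t (t + s)).filter fun z => z.re = 1 / 2 ∧ mult riemannZeta z = 1).card : ℝ)

open Classical in
/-- the simple zeros on the line in a block -/
noncomputable def SZ (A B : ℝ) : Finset ℂ :=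
  (Zf riemannZeta A B).filter fun z => z.re = 1 / 2 ∧ mult riemannZeta z = 1

lemma ns_nonneg (t s : ℝ) : 0 ≤ ns t s := Nat.cast_nonneg _

lemma ns_eq {A B t s : ℝ} (hA : 1 ≤ A) (hAt : A ≤ t) (htB : t + s ≤ B) :
    ns t s = ∑ z ∈ SZ A B, iv s z.im t := by
  classical
  unfold ns SZ
  have h1 : ∑ z ∈ (Zf riemannZeta A B).filter (fun z => z.re = 1 / 2 ∧ mult riemannZeta z = 1),
      iv s z.im t = ∑ z ∈ (Zf riemannZeta A B).filter (fun z => z.re = 1 / 2 ∧ mult riemannZeta z = 1),
        if t < z.im ∧ z.im ≤ t + s then (1 : ℝ) else 0 :=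
    Finset.sum_congr rfl fun z _ => iv_eq _ _ _
  rw [h1, Finset.sum_boole, Finset.filter_filter]
  congr 2
  ext z
  rw [Finset.mem_filter, Finset.mem_filter, mem_Zf good_zeta (hA.trans hAt), mem_Zf good_zeta hA]
  simp only [zset, Set.mem_ofPred_eq]
  constructor
  · rintro ⟨⟨h1, h2, h3, h4, h5⟩, h6⟩
    exact ⟨⟨h1, h2, by linarith, by linarith, h5⟩, h6, h3, h4⟩
  · rintro ⟨⟨h1, h2, h3, h4, h5⟩, h6, h7, h8⟩
    exact ⟨⟨h1, h2, h7, h8, h5⟩, h6⟩

lemma ns_le_cnt {T t s : ℝ} (hT : 1 ≤ T) (h1 : T ≤ t) (h2 : t + s ≤ 2 * T) :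
    ns t s ≤ cnt T t (t + s) := by
  classical
  rw [ns_eq hT h1 h2]
  unfold cnt SZ
  rw [Finset.sum_filter]
  refine Finset.sum_le_sum fun z hz => ?_
  split_ifs with h
  · have hm : (mz z : ℝ) = 1 := by
      have : mz z = 1 := h.2
      rw [this]; norm_num
    rw [hm, one_mul, iv_eq']
  · exact mul_nonneg (Nat.cast_nonneg _) (Set.indicator_nonneg (fun _ _ => zero_le_one) _)

/-- the truncated count, on a block -/
lemma trunc_ge {n c l : ℝ} (h : n ≤ c) : n - |c - l| ≤ min n l := by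
  rw [le_min_iff]
  constructor
  · linarith [abs_nonneg (c - l)]
  · linarith [le_abs_self (c - l)]

/-- the zeros near the ends of an interval -/
lemma edges {κ ε : ℝ} (hκ : 0 < κ) (hε : 0 < ε) : ∀ᶠ T : ℝ in atTop, ∀ H : ℝ, κ * T ≤ H → H ≤ T →
    (NN riemannZeta T (T + 3 * Real.log T) : ℝ) + NN riemannZeta (T + H - 3 * Real.log T) (T + H) ≤
      ε * H := by
  obtain ⟨C, hC, hz⟩ := zcount good_zeta
  have ev1 : ∀ᶠ T : ℝ in atTop, 2 * ((3 * Real.log T / 2 + 1) * (C * (2 * Real.log T))) ≤ ε * κ * T := by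
    have h1 := ev_log_pow (ε * κ / (2 * (2 * C * (1 + 3 / 2)))) 1 1 2 (by positivity) one_pos one_pos
    filter_upwards [h1, Real.tendsto_log_atTop.eventually_ge_atTop 1] with T hT hL
    rw [one_mul, Real.rpow_one] at hT
    set L := Real.log T
    have h2 : (3 * L / 2 + 1) * (C * (2 * L)) ≤ (2 * C * (1 + 3 / 2)) * (1 + L) ^ 2 := by
      have : (3 * L / 2 + 1) * (2 * L) ≤ (2 * (1 + 3 / 2)) * (1 + L) ^ 2 := by nlinarith
      calc (3 * L / 2 + 1) * (C * (2 * L)) = C * ((3 * L / 2 + 1) * (2 * L)) := by ring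
        _ ≤ C * ((2 * (1 + 3 / 2)) * (1 + L) ^ 2) := by gcongr
        _ = _ := by ring
    calc 2 * ((3 * L / 2 + 1) * (C * (2 * L))) ≤ 2 * ((2 * C * (1 + 3 / 2)) * (1 + L) ^ 2) := by gcongr
      _ ≤ 2 * ((2 * C * (1 + 3 / 2)) * (ε * κ / (2 * (2 * C * (1 + 3 / 2))) * T)) := by gcongr
      _ = ε * κ * T := by field_simp
  have ev2 : ∀ᶠ T : ℝ in atTop, 3 * Real.log T + 10 ≤ κ * T := by
    have h1 := ev_log_pow (κ / 13) 1 1 1 (by positivity) one_pos one_pos
    filter_upwards [h1, Real.tendsto_log_atTop.eventually_ge_atTop 0] with T hT hL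
    rw [one_mul, Real.rpow_one, pow_one] at hT
    nlinarith
  filter_upwards [ev1, ev2, eventually_ge_atTop 100, Real.tendsto_log_atTop.eventually_ge_atTop 1]
    with T h1 h2 hT hL H hH1 hH2
  set L := Real.log T with hLd
  have hT0 : 0 < T := by linarith
  have key : ∀ x : ℝ, 3 ≤ x → x + 3 * L + 2 ≤ 2 * T + 2 →
      (NN riemannZeta x (x + 3 * L) : ℝ) ≤ (3 * L / 2 + 1) * (C * (2 * L)) := by
    intro x hx hx2
    set n : ℕ := ⌈3 * L / 2⌉₊ with hn
    have hn1 : 3 * L / 2 ≤ n := Nat.le_ceil _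
    have hn2 : (n : ℝ) ≤ 3 * L / 2 + 1 := (Nat.ceil_lt_add_one (by positivity)).le
    have h3 := ZERL.NN_le hC hz x hx n
    have h4 : (NN riemannZeta x (x + 3 * L) : ℝ) ≤ NN riemannZeta x (x + 2 * n) := by
      have h44 : x + 3 * L ≤ x + 2 * n := by linarith
      exact_mod_cast NN_mono good_zeta (by linarith : (1 : ℝ) ≤ x) le_rfl h44
    refine h4.trans (h3.trans ?_)
    have h5 : Real.log (x + 2 * n) ≤ 2 * L := by
      have h6 : x + 2 * n ≤ T ^ 2 := by nlinarith
      calc Real.log (x + 2 * n) ≤ Real.log (T ^ 2) := Real.log_le_log (by positivity) h6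
        _ = 2 * L := by rw [Real.log_pow]; push_cast; ring
    have h7 : 0 ≤ Real.log (x + 2 * n) := Real.log_nonneg (by
      have : (0 : ℝ) ≤ n := Nat.cast_nonneg n
      linarith)
    gcongr
  have k1 := key T (by linarith) (by
    have : κ * T ≤ T := hH1.trans hH2
    linarith)
  have k2 := key (T + H - 3 * L) (by linarith) (by linarith)
  rw [show T + H - 3 * L + 3 * L = T + H by ring] at k2
  have h3 : ε * κ * T ≤ ε * H := by
    rw [mul_assoc]; gcongr
  linarith

/-- the sum over the simple zeros away from the ends -/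
lemma inner_sum {T H s L b η : ℝ} {G : ℝ → ℝ} (hT : 1 ≤ T) (hs0 : 0 ≤ s) (hsL : s ≤ L) (hL : 0 ≤ L)
    (h0 : ∀ t, 0 ≤ G t) (h1 : ∀ t, G t ≤ 1) (hη : 0 ≤ η) (hHL : 6 * L ≤ H) :
    W1 riemannZeta T (T + H) (fun t => G (t - b)) -
      ((NN riemannZeta T (T + 3 * L) : ℝ) + NN riemannZeta (T + H - 3 * L) (T + H)) -
      η * NN riemannZeta T (T + H) ≤
    ∑ z ∈ (SZ T (T + H)).filter (fun z => T + 2 * L + s ≤ z.im ∧ z.im ≤ T + H - 2 * L),
      (G (z.im - b) - η) := by
  classical
  set P := SZ T (T + H) with hP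
  set Wc := P.filter (fun z => ¬ (T + 2 * L + s ≤ z.im ∧ z.im ≤ T + H - 2 * L)) with hWc
  set Wi := P.filter (fun z => T + 2 * L + s ≤ z.im ∧ z.im ≤ T + H - 2 * L) with hWi
  have e1 : W1 riemannZeta T (T + H) (fun t => G (t - b)) =
      ∑ z ∈ Wi, G (z.im - b) + ∑ z ∈ Wc, G (z.im - b) := by
    rw [hWi, hWc, Finset.sum_filter_add_sum_filter_not]
    rfl
  have e2 : ∑ z ∈ Wc, G (z.im - b) ≤ (NN riemannZeta T (T + 3 * L) : ℝ) +
      NN riemannZeta (T + H - 3 * L) (T + H) := by
    have c1 := card_le_NN good_zeta (A := T) (B := T + 3 * L) hT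
    have c2 := card_le_NN good_zeta (A := T + H - 3 * L) (B := T + H) (by linarith)
    have c3 : (Wc.card : ℝ) ≤ ((Zf riemannZeta T (T + 3 * L)).card : ℝ) +
        (Zf riemannZeta (T + H - 3 * L) (T + H)).card := by
      have : Wc ⊆ Zf riemannZeta T (T + 3 * L) ∪ Zf riemannZeta (T + H - 3 * L) (T + H) := by
        intro z hz
        rw [hWc, Finset.mem_filter, hP] at hz
        obtain ⟨hz1, hz2⟩ := hz
        unfold SZ at hz1
        rw [Finset.mem_filter, mem_Zf good_zeta hT] at hz1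
        obtain ⟨⟨a1, a2, a3, a4, a5⟩, -⟩ := hz1
        rw [Finset.mem_union, mem_Zf good_zeta hT, mem_Zf good_zeta (by linarith)]
        simp only [zset, Set.mem_ofPred_eq]
        rw [not_and_or, not_le, not_le] at hz2
        rcases hz2 with hz2 | hz2
        · exact Or.inl ⟨a1, a2, a3, by linarith, a5⟩
        · exact Or.inr ⟨a1, a2, by linarith, a4, a5⟩
      exact_mod_cast (Finset.card_le_card this).trans (Finset.card_union_le _ _)
    have c4 : ∑ z ∈ Wc, G (z.im - b) ≤ (Wc.card : ℝ) := by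
      rw [Finset.card_eq_sum_ones]
      push_cast
      exact Finset.sum_le_sum fun z _ => h1 _
    linarith
  have e3 : (Wi.card : ℝ) ≤ NN riemannZeta T (T + H) := by
    have c1 := card_le_NN good_zeta (A := T) (B := T + H) hT
    have c2 : (Wi.card : ℝ) ≤ ((Zf riemannZeta T (T + H)).card : ℝ) := by
      have : Wi ⊆ Zf riemannZeta T (T + H) := by
        intro z hz
        rw [hWi, Finset.mem_filter, hP] at hz
        have := hz.1
        unfold SZ at this
        exact (Finset.mem_filter.1 this).1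
      exact_mod_cast Finset.card_le_card this
    linarith
  have e4 : ∑ z ∈ Wi, (G (z.im - b) - η) = ∑ z ∈ Wi, G (z.im - b) - η * Wi.card := by
    rw [Finset.sum_sub_distrib, Finset.sum_const, nsmul_eq_mul, mul_comm]
  have e5 : η * (Wi.card : ℝ) ≤ η * NN riemannZeta T (T + H) := by gcongr
  rw [e4]
  linarith

/-- **truncated counts in windows, with an almost periodic weight** -/
theorem win_core {κ ε : ℝ} (hκ : 0 < κ) (hε : 0 < ε) :
    ∃ K0 : ℝ, 1 ≤ K0 ∧ ∀ (G : ℝ → ℝ) (M : ℝ), APm G M → (∀ t, 0 ≤ G t) → (∀ t, G t ≤ 1) →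
      ∃ s0 T0 : ℝ, 0 < s0 ∧ 10 ≤ T0 ∧ ∀ T : ℝ, T0 ≤ T → ∀ H : ℝ, κ * T ≤ H → H ≤ T → ∀ b s : ℝ,
        K0 ≤ s * Real.log T → s ≤ s0 →
        ((2 - cc 1) * M - ε) * (s * Real.log T / (2 * Real.pi)) * H ≤
          ∫ t in T..(T + H), G (t - b) * min (ns t s) (s * Real.log T / (2 * Real.pi)) := by
  classical
  have hpi := Real.pi_pos
  obtain ⟨K, T1, hK, hT1, hLLN⟩ := p_LLN (ε * κ / (8 * Real.pi)) (by positivity)
  refine ⟨K, hK, fun G M hG h0 h1 => ?_⟩
  obtain ⟨T2, hT2, hW⟩ := weights_unif hG h0 hκ (ε := ε / 8) (by positivity)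
  obtain ⟨δ, hδ, hmod⟩ := modulus (APm_APu hG) (η := ε / 8) (by positivity)
  obtain ⟨C, hC, hends⟩ := H965SI.countShort riemannZeta good_zeta
  have hGc : Continuous G := (APm_APu hG).cont
  set a : ℝ := (2 - cc 1) * M with ha
  set A : ℝ := |a| + ε with hA
  have hA0 : 0 ≤ A := by positivity
  have ev1 := edges hκ one_pos
  have ev2 : ∀ᶠ T : ℝ in atTop, (Real.log T) ^ 2 + 6 * Real.log T + 3 ≤ κ * T := by
    have h1 := ev_log_pow (κ / 10) 1 1 2 (by positivity) one_pos one_pos
    filter_upwards [h1, Real.tendsto_log_atTop.eventually_ge_atTop 0] with T hT hL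
    rw [one_mul, Real.rpow_one] at hT
    nlinarith
  have ev3 : ∀ᶠ T : ℝ in atTop, (2 * A * C + 1) * (8 * Real.pi / ε) ≤ Real.log T :=
    Real.tendsto_log_atTop.eventually_ge_atTop _
  obtain ⟨T3, hT3⟩ := ((((ev1.and ev2).and ev3).and (Real.tendsto_log_atTop.eventually_ge_atTop 1)).and
    (eventually_ge_atTop (100 : ℝ))).exists_forall_of_atTop
  refine ⟨min δ (min (1 / K) 1), max (max T1 T2) T3, by positivity,
    (hT1.trans (le_max_left _ _)).trans (le_max_left _ _), fun T hT H hH1 hH2 b s hs1 hs2 => ?_⟩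
  have hTT1 : T1 ≤ T := ((le_max_left _ _).trans (le_max_left _ _)).trans hT
  have hTT2 : T2 ≤ T := ((le_max_right _ _).trans (le_max_left _ _)).trans hT
  obtain ⟨⟨⟨⟨g1, g2⟩, g3⟩, hL1⟩, hT100⟩ := hT3 T ((le_max_right _ _).trans hT)
  have hsδ : s ≤ δ := hs2.trans (min_le_left _ _)
  have hsK : s ≤ 1 / K := hs2.trans ((min_le_right _ _).trans (min_le_left _ _))
  have hs1' : s ≤ 1 := hs2.trans ((min_le_right _ _).trans (min_le_right _ _))
  set L := Real.log T with hL
  have hL0 : 0 < L := by linarith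
  have hs0 : 0 < s := by
    by_contra hcon
    push Not at hcon
    have : s * L ≤ 0 := mul_nonpos_of_nonpos_of_nonneg hcon hL0.le
    linarith
  have hT0 : 0 < T := by linarith
  have hH0 : 0 < H := lt_of_lt_of_le (by positivity) hH1
  have hHL : 6 * L ≤ H := by nlinarith [sq_nonneg L]
  have hL2 : L ^ 2 ≤ H := by nlinarith
  set l : ℝ := s * L / (2 * Real.pi) with hl
  have hl0 : 0 < l := by positivity
  have hedge := g1 H hH1 hH2
  rw [one_mul] at hedge
  have hWW := hW T hTT2 H hH1 hH2 b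
  have hcnt := (hends T (by linarith) H (by linarith) hH2 T (T + H) le_rfl (by linarith)
    (by linarith) le_rfl).1
  -- the integrand
  set f : ℝ → ℝ := fun t => G (t - b) * min (ns t s) l with hf
  set g : ℝ → ℝ := fun t => G (t - b) * min (∑ z ∈ SZ T (3 * T), iv s z.im t) l with hg
  have hfg : ∀ t ∈ Icc T (T + H), f t = g t := by
    intro t ht
    simp only [hf, hg]
    rw [ns_eq (by linarith) ht.1 (by linarith [ht.2] : t + s ≤ 3 * T)]
  have hSnn : ∀ (P : Finset ℂ) (t : ℝ), 0 ≤ ∑ z ∈ P, iv s z.im t := fun P t =>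
    Finset.sum_nonneg fun z _ => iv_nonneg _ _ _
  have hSm : ∀ P : Finset ℂ, Measurable fun t => ∑ z ∈ P, iv s z.im t := fun P =>
    Finset.measurable_fun_sum _ fun z _ => iv_meas _ _
  have hSle : ∀ (P : Finset ℂ) (t : ℝ), ∑ z ∈ P, iv s z.im t ≤ (P.card : ℝ) := by
    intro P t
    rw [Finset.card_eq_sum_ones]
    push_cast
    exact Finset.sum_le_sum fun z _ => iv_le _ _ _
  have hGm : Measurable fun t => G (t - b) := (hGc.comp (continuous_id.sub continuous_const)).measurable
  have hgm : Measurable g := hGm.mul ((hSm _).min measurable_const)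
  have hg0 : ∀ t, 0 ≤ g t := fun t => mul_nonneg (h0 _) (le_min (hSnn _ _) hl0.le)
  have hgl : ∀ t, |g t| ≤ l := by
    intro t
    rw [abs_of_nonneg (hg0 t)]
    calc g t ≤ 1 * l := mul_le_mul (h1 _) (min_le_right _ _) (le_min (hSnn _ _) hl0.le) zero_le_one
      _ = l := one_mul _
  have hgi := bdd_ii hgm hgl
  -- the function with the full count
  set P := SZ T (2 * T) with hP
  set h : ℝ → ℝ := fun t => G (t - b) * ∑ z ∈ P, iv s z.im t with hh
  have hhm : Measurable h := hGm.mul (hSm _)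
  have hhl : ∀ t, |h t| ≤ (P.card : ℝ) := by
    intro t
    rw [abs_of_nonneg (mul_nonneg (h0 _) (hSnn _ _))]
    calc h t ≤ 1 * (P.card : ℝ) := mul_le_mul (h1 _) (hSle _ _) (hSnn _ _) zero_le_one
      _ = _ := one_mul _
  have hhi := bdd_ii hhm hhl
  set D : ℝ → ℝ := fun t => |cnt T t (t + s) - l| with hD
  have hcm : Measurable fun t => cnt T t (t + s) := by
    have : (fun t => cnt T t (t + s)) = fun t => ∑ z ∈ Zf riemannZeta T (2 * T), (mz z : ℝ) * iv s z.im t := by
      funext t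
      unfold cnt
      exact Finset.sum_congr rfl fun z _ => by rw [iv_eq']
    rw [this]
    exact Finset.measurable_fun_sum _ fun z _ => (iv_meas _ _).const_mul _
  have hcb : ∀ t, |cnt T t (t + s)| ≤ ∑ z ∈ Zf riemannZeta T (2 * T), (mz z : ℝ) := by
    intro t
    have hc0 : 0 ≤ cnt T t (t + s) := Finset.sum_nonneg fun z _ =>
      mul_nonneg (Nat.cast_nonneg _) (Set.indicator_nonneg (fun _ _ => zero_le_one) _)
    rw [abs_of_nonneg hc0]
    unfold cnt
    refine Finset.sum_le_sum fun z _ => ?_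
    have : (Set.Ioc t (t + s)).indicator (fun _ => (1 : ℝ)) z.im ≤ 1 := by
      rw [← iv_eq']; exact iv_le _ _ _
    calc (mz z : ℝ) * (Set.Ioc t (t + s)).indicator (fun _ => (1 : ℝ)) z.im ≤ (mz z : ℝ) * 1 := by gcongr
      _ = _ := mul_one _
  have hDi : ∀ x y, IntervalIntegrable D volume x y := by
    intro x y
    exact ((bdd_ii hcm hcb x y).sub intervalIntegrable_const).abs
  have hD0 : ∀ t, 0 ≤ D t := fun t => abs_nonneg _
  set A0 : ℝ := T + 2 * L with hA0'
  set B0 : ℝ := T + H - 2 * L with hB0'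
  have hAB : A0 ≤ B0 := by rw [hA0', hB0']; linarith
  -- step 1: restrict
  have s1 : ∫ t in A0..B0, g t ≤ ∫ t in T..(T + H), f t := by
    have e1 : ∫ t in T..(T + H), f t = ∫ t in T..(T + H), g t := by
      apply intervalIntegral.integral_congr
      intro t ht
      rw [uIcc_of_le (by linarith)] at ht
      exact hfg t ht
    have e2 : ∫ t in T..(T + H), g t = (∫ t in T..A0, g t) + (∫ t in A0..B0, g t) +
        ∫ t in B0..(T + H), g t := by
      rw [intervalIntegral.integral_add_adjacent_intervals (hgi _ _) (hgi _ _),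
        intervalIntegral.integral_add_adjacent_intervals (hgi _ _) (hgi _ _)]
    have e3 : 0 ≤ ∫ t in T..A0, g t :=
      intervalIntegral.integral_nonneg (by rw [hA0']; linarith) fun t _ => hg0 t
    have e4 : 0 ≤ ∫ t in B0..(T + H), g t :=
      intervalIntegral.integral_nonneg (by rw [hB0']; linarith) fun t _ => hg0 t
    rw [e1, e2]
    linarith
  -- step 2: pointwise
  have s2 : ∫ t in A0..B0, (h t - D t) ≤ ∫ t in A0..B0, g t := by
    refine intervalIntegral.integral_mono_on hAB ((hhi _ _).sub (hDi _ _)) (hgi _ _) fun t ht => ?_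
    have ht1 : T ≤ t := by linarith [ht.1]
    have ht2 : t + s ≤ 2 * T := by linarith [ht.2]
    have e1 : ∑ z ∈ P, iv s z.im t = ns t s := (ns_eq (by linarith) ht1 ht2).symm
    have e2 : ∑ z ∈ SZ T (3 * T), iv s z.im t = ns t s :=
      (ns_eq (by linarith) ht1 (by linarith)).symm
    simp only [hh, hD, hg]
    rw [e1, e2]
    have e3 := trunc_ge (l := l) (ns_le_cnt (by linarith) ht1 ht2)
    have e4 : G (t - b) * (ns t s - |cnt T t (t + s) - l|) ≤ G (t - b) * min (ns t s) l := by
      gcongr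
      exact h0 _
    have e5 : G (t - b) * |cnt T t (t + s) - l| ≤ 1 * |cnt T t (t + s) - l| := by
      gcongr
      exact h1 _
    linarith
  have s3 : ∫ t in A0..B0, (h t - D t) = (∫ t in A0..B0, h t) - ∫ t in A0..B0, D t :=
    intervalIntegral.integral_sub (hhi _ _) (hDi _ _)
  have s4 : ∫ t in A0..B0, D t ≤ ε * κ / (8 * Real.pi) * s * L * T := by
    refine le_trans ?_ (hLLN T hTT1 s hs1 hsK)
    rw [← hL]
    have e1 : ∫ t in (T + 2 * L)..(2 * T - 2 * L), D t = (∫ t in A0..B0, D t) +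
        ∫ t in B0..(2 * T - 2 * L), D t := by
      rw [intervalIntegral.integral_add_adjacent_intervals (hDi _ _) (hDi _ _)]
    have e2 : 0 ≤ ∫ t in B0..(2 * T - 2 * L), D t :=
      intervalIntegral.integral_nonneg (by rw [hB0']; linarith) fun t _ => hD0 t
    have e3 : ∫ t in (T + 2 * L)..(2 * T - 2 * L), |cnt T t (t + s) - s * L / (2 * Real.pi)| =
        ∫ t in (T + 2 * L)..(2 * T - 2 * L), D t := rfl
    rw [e3, e1]
    linarith
  -- step 3: the sum over the zeros
  have s5 : s * ∑ z ∈ (SZ T (T + H)).filter (fun z => T + 2 * L + s ≤ z.im ∧ z.im ≤ T + H - 2 * L),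
      (G (z.im - b) - ε / 8) ≤ ∫ t in A0..B0, h t := by
    have hti : ∀ z ∈ P, IntervalIntegrable (fun t => G (t - b) * iv s z.im t) volume A0 B0 := by
      intro z _
      refine bdd_ii (hGm.mul (iv_meas _ _)) (C := 1) (fun t => ?_) _ _
      show |G (t - b) * iv s z.im t| ≤ 1
      rw [abs_of_nonneg (mul_nonneg (h0 _) (iv_nonneg _ _ _))]
      exact mul_le_one₀ (h1 _) (iv_nonneg _ _ _) (iv_le _ _ _)
    have e1 : ∫ t in A0..B0, h t = ∑ z ∈ P, ∫ t in A0..B0, G (t - b) * iv s z.im t := by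
      rw [← intervalIntegral.integral_finsetSum hti]
      apply intervalIntegral.integral_congr
      intro t _
      simp only [hh, Finset.mul_sum]
    rw [e1, Finset.mul_sum]
    have hsub : (SZ T (T + H)).filter (fun z => T + 2 * L + s ≤ z.im ∧ z.im ≤ T + H - 2 * L) ⊆ P := by
      intro z hz
      rw [Finset.mem_filter] at hz
      have hz1 := hz.1
      rw [hP]
      unfold SZ at hz1 ⊢
      rw [Finset.mem_filter, mem_Zf good_zeta (by linarith)] at hz1 ⊢
      obtain ⟨⟨a1, a2, a3, a4, a5⟩, a6⟩ := hz1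
      exact ⟨⟨a1, a2, a3, by linarith, a5⟩, a6⟩
    refine (Finset.sum_le_sum fun z hz => ?_).trans
      (Finset.sum_le_sum_of_subset_of_nonneg hsub fun z _ _ =>
        intervalIntegral.integral_nonneg hAB fun t _ => mul_nonneg (h0 _) (iv_nonneg _ _ _))
    rw [Finset.mem_filter] at hz
    refine int_iv (G := fun t => G (t - b)) (hGc.comp (continuous_id.sub continuous_const))
      (fun t => h0 _) hs0.le hz.2.1 hz.2.2 fun t ht => ?_
    have := hmod (z.im - b) (t - b) (by
      rw [show z.im - b - (t - b) = -(t - z.im) by ring, abs_neg]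
      exact ht.trans hsδ)
    have := (abs_le.1 this).2
    linarith
  have s6 := inner_sum (T := T) (H := H) (s := s) (L := L) (b := b) (η := ε / 8) (G := G) (by linarith) hs0.le
    (by linarith) hL0.le h0 h1 (by positivity) hHL
  -- assemble
  set N : ℝ := (NN riemannZeta T (T + H) : ℝ) with hN
  have t1 : (a - ε / 4) * (H * L / (2 * Real.pi)) - A * (2 * C * H) ≤ (a - ε / 4) * N := by
    have e1 : |(a - ε / 4) * (N - H * L / (2 * Real.pi))| ≤ A * (2 * C * H) := by
      rw [abs_mul]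
      have e2 : |a - ε / 4| ≤ A := by
        rw [hA]
        calc |a - ε / 4| ≤ |a| + |ε / 4| := abs_sub _ _
          _ ≤ |a| + ε := by
            rw [abs_of_pos (by positivity : 0 < ε / 4)]; linarith
      have e3 : |N - H * L / (2 * Real.pi)| ≤ 2 * C * H := by
        refine hcnt.trans ?_
        calc C * (H + L ^ 2) ≤ C * (H + H) := by gcongr
          _ = _ := by ring
      exact mul_le_mul e2 e3 (abs_nonneg _) hA0
    have e4 := (abs_le.1 e1).1
    nlinarith
  have t2 : s * ((a - ε / 4) * N - H) ≤ ∫ t in A0..B0, h t := by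
    refine le_trans ?_ s5
    apply mul_le_mul_of_nonneg_left _ hs0.le
    refine le_trans ?_ s6
    linarith
  have t3 : ε * κ / (8 * Real.pi) * s * L * T ≤ ε / 4 * (l * H) := by
    calc ε * κ / (8 * Real.pi) * s * L * T = ε / (8 * Real.pi) * s * L * (κ * T) := by ring
      _ ≤ ε / (8 * Real.pi) * s * L * H := by gcongr
      _ = ε / 4 * (l * H) := by rw [hl]; field_simp; ring
  have t4 : s * ((2 * A * C + 1) * H) ≤ ε / 4 * (l * H) := by
    have e1 : 2 * A * C + 1 ≤ ε / (8 * Real.pi) * L := by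
      calc 2 * A * C + 1 = ε / (8 * Real.pi) * ((2 * A * C + 1) * (8 * Real.pi / ε)) := by field_simp
        _ ≤ ε / (8 * Real.pi) * L := by gcongr
    calc s * ((2 * A * C + 1) * H) ≤ s * ((ε / (8 * Real.pi) * L) * H) := by gcongr
      _ = ε / 4 * (l * H) := by rw [hl]; field_simp; ring
  have t5 : s * ((a - ε / 4) * (H * L / (2 * Real.pi))) = (a - ε / 4) * (l * H) := by
    rw [hl]; ring
  have t6 : s * ((a - ε / 4) * (H * L / (2 * Real.pi)) - A * (2 * C * H)) ≤ s * ((a - ε / 4) * N) :=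
    mul_le_mul_of_nonneg_left t1 hs0.le
  have t7 : 0 < ε * (l * H) := by positivity
  have t8 : (a - ε) * l * H = (a - ε / 4) * (l * H) - 3 / 4 * (ε * (l * H)) := by ring
  rw [t8]
  have t9 : s * ((a - ε / 4) * (H * L / (2 * Real.pi)) - A * (2 * C * H)) =
      s * ((a - ε / 4) * (H * L / (2 * Real.pi))) - s * (2 * A * C * H) := by ring
  have t10 : s * ((a - ε / 4) * N - H) = s * ((a - ε / 4) * N) - s * H := by ring
  have t11 : s * ((2 * A * C + 1) * H) = s * (2 * A * C * H) + s * H := by ring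
  linarith

end Pool.Agent.H493.WB
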